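import Mathlib

/-!
# The three point inequality over number fields and the map `t ↦ t² / (2 - t²)`

For `1 / t = u` the map is `u ↦ 2 u² - 1`. It maps `0, 1, -1` to `0, 1, 1`, is ramified above
`0` and `-1` only, and the only further point above `0, 1, -1` is `∞`.
-/

set_option autoImplicit false

namespace Pool.Agent.Q290.NF

open NumberField IsDedekindDomain Height

variable {K : Type} [Field K] [NumberField K]

/-- `log N(v)` -/
noncomputable def ell (v : HeightOneSpectrum (𝓞 K)) : ℝ := Real.log (Ideal.absNorm v.asIdeal : ℝ)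

theorem ell_pos (v : HeightOneSpectrum (𝓞 K)) : 0 < ell v := by
  unfold ell
  apply Real.log_pos
  exact_mod_cast HeightOneSpectrum.one_lt_absNorm v

open Classical in
/-- `log N(v)` if `v` has the property `P`, and `0` otherwise -/
noncomputable def ind (P : HeightOneSpectrum (𝓞 K) → Prop) (v : HeightOneSpectrum (𝓞 K)) : ℝ :=
  if P v then ell v else 0

/-- the sum of `log N(v)` over the primes with the property `P` -/
noncomputable def wt (P : HeightOneSpectrum (𝓞 K) → Prop) : ℝ := ∑ᶠ v, ind P v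

theorem ind_pos {P : HeightOneSpectrum (𝓞 K) → Prop} {v : HeightOneSpectrum (𝓞 K)} (h : P v) :
    ind P v = ell v := if_pos h

theorem ind_neg {P : HeightOneSpectrum (𝓞 K) → Prop} {v : HeightOneSpectrum (𝓞 K)} (h : ¬ P v) :
    ind P v = 0 := if_neg h

theorem ind_nonneg (P : HeightOneSpectrum (𝓞 K) → Prop) (v : HeightOneSpectrum (𝓞 K)) :
    0 ≤ ind P v := by
  by_cases h : P v
  · rw [ind_pos h]; exact (ell_pos v).le
  · rw [ind_neg h]

theorem supp_sub (P : HeightOneSpectrum (𝓞 K) → Prop) :
    (Function.support (ind P)) ⊆ {v | P v} := by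
  intro v hv
  rw [Function.mem_support] at hv
  by_contra h
  exact hv (ind_neg h)

theorem wt_nonneg (P : HeightOneSpectrum (𝓞 K) → Prop) : 0 ≤ wt P :=
  finsum_nonneg fun v => ind_nonneg P v

theorem wt_mono {P Q : HeightOneSpectrum (𝓞 K) → Prop} (hQ : {v | Q v}.Finite)
    (h : ∀ v, P v → Q v) : wt P ≤ wt Q := by
  unfold wt
  refine finsum_le_finsum' ?_ ?_ fun v => ?_
  · exact hQ.subset ((supp_sub _).trans fun v hv => h v hv)
  · exact hQ.subset (supp_sub _)
  · by_cases h1 : P v
    · rw [ind_pos h1, ind_pos (h v h1)]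
    · rw [ind_neg h1]
      exact ind_nonneg _ _

theorem wt_or_le {P Q : HeightOneSpectrum (𝓞 K) → Prop} (hP : {v | P v}.Finite)
    (hQ : {v | Q v}.Finite) : wt (fun v => P v ∨ Q v) ≤ wt P + wt Q := by
  unfold wt
  rw [← finsum_add_distrib (hP.subset (supp_sub _)) (hQ.subset (supp_sub _))]
  refine finsum_le_finsum' ?_ ?_ fun v => ?_
  · exact (hP.union hQ).subset (supp_sub _)
  · refine (hP.union hQ).subset fun v hv => ?_
    rw [Function.mem_support] at hv
    by_contra h
    rw [Set.mem_union, not_or] at h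
    exact hv (by rw [ind_neg (P := P) h.1, ind_neg (P := Q) h.2, add_zero])
  · have hp := ind_nonneg P v
    have hq := ind_nonneg Q v
    by_cases h1 : P v
    · rw [ind_pos (P := fun v => P v ∨ Q v) (Or.inl h1)]
      rw [← ind_pos h1]
      linarith
    · by_cases h2 : Q v
      · rw [ind_pos (P := fun v => P v ∨ Q v) (Or.inr h2)]
        rw [← ind_pos h2]
        linarith
      · rw [ind_neg (P := fun v => P v ∨ Q v) (not_or.2 ⟨h1, h2⟩)]
        linarith

/-! ### poles -/

theorem fin_mk (v : HeightOneSpectrum (𝓞 K)) (x : K) :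
    FinitePlace.mk v x = (WithZeroMulInt.toNNReal (HeightOneSpectrum.absNorm_ne_zero v)
      (v.valuation K x) : ℝ) := by
  rw [FinitePlace.mk_apply, FinitePlace.norm_embedding, HeightOneSpectrum.adicAbv_def]

theorem mk_le_one {v : HeightOneSpectrum (𝓞 K)} {x : K} :
    FinitePlace.mk v x ≤ 1 ↔ v.valuation K x ≤ 1 := by
  rw [fin_mk]
  have h := WithZeroMulInt.toNNReal_le_one_iff (m := v.valuation K x)
    (HeightOneSpectrum.one_lt_absNorm_nnreal v)
  exact_mod_cast h

theorem norm_le_mk {v : HeightOneSpectrum (𝓞 K)} {x : K} (h : 1 < v.valuation K x) :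
    (Ideal.absNorm v.asIdeal : ℝ) ≤ FinitePlace.mk v x := by
  have hx : v.valuation K x ≠ 0 := fun h0 => by rw [h0] at h; exact absurd h (by simp)
  have h1 : 1 < WithZeroMulInt.toNNReal (HeightOneSpectrum.absNorm_ne_zero v)
      (v.valuation K x) := by
    by_contra hcon
    rw [not_lt] at hcon
    exact absurd ((WithZeroMulInt.toNNReal_le_one_iff
      (HeightOneSpectrum.one_lt_absNorm_nnreal v)).1 hcon) (not_le.2 h)
  rw [fin_mk]
  rw [WithZeroMulInt.toNNReal_neg_apply _ hx] at h1 ⊢
  obtain ⟨n, hn⟩ : ∃ n : ℤ, n = Multiplicative.toAdd (WithZero.unzero hx) := ⟨_, rfl⟩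
  rw [← hn] at h1 ⊢
  have h2 : 0 < n := by
    by_contra hcon
    rw [not_lt] at hcon
    have := zpow_le_one_of_nonpos₀ (HeightOneSpectrum.one_lt_absNorm_nnreal v).le hcon
    exact absurd this (not_le.2 h1)
  have h3 : ((Ideal.absNorm v.asIdeal : ℕ) : ℝ) ^ (1 : ℤ) ≤
      ((Ideal.absNorm v.asIdeal : ℕ) : ℝ) ^ n := by
    refine zpow_le_zpow_right₀ ?_ (by omega)
    exact_mod_cast (HeightOneSpectrum.one_lt_absNorm v).le
  rw [zpow_one] at h3
  push_cast
  exact h3

theorem fin_ne_one {x : K} (hx : x ≠ 0) :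
    {v : HeightOneSpectrum (𝓞 K) | FinitePlace.mk v x ≠ 1}.Finite := by
  have h := FinitePlace.hasFiniteMulSupport (K := K) hx
  have h2 : {v : HeightOneSpectrum (𝓞 K) | FinitePlace.mk v x ≠ 1} =
      (fun v => (FinitePlace.equivHeightOneSpectrum (K := K)).symm v) ⁻¹'
        {w : FinitePlace K | w x ≠ 1} := by
    ext v
    rfl
  rw [h2]
  exact Set.Finite.preimage (Equiv.injective _).injOn h

theorem fin_pole (x : K) : {v : HeightOneSpectrum (𝓞 K) | 1 < v.valuation K x}.Finite := by
  by_cases hx : x = 0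
  · refine Set.finite_empty.subset fun v hv => ?_
    rw [Set.mem_ofPred_eq, hx, map_zero] at hv
    exact absurd hv (by simp)
  · refine (fin_ne_one hx).subset fun v hv => ?_
    intro h
    exact absurd (mk_le_one.1 h.le) (not_le.2 hv)

theorem fin_zero {x : K} (hx : x ≠ 0) :
    {v : HeightOneSpectrum (𝓞 K) | v.valuation K x < 1}.Finite := by
  refine (fin_pole x⁻¹).subset fun v hv => ?_
  rw [Set.mem_ofPred_eq] at hv ⊢
  rw [map_inv₀]
  have h0 : v.valuation K x ≠ 0 := (Valuation.ne_zero_iff _).2 hx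
  exact (one_lt_inv₀ (zero_lt_iff.2 h0)).2 hv

/-- the poles of `x` are bounded by its height -/
theorem pole_le (x : K) :
    wt (fun v : HeightOneSpectrum (𝓞 K) => 1 < v.valuation K x) ≤ logHeight₁ x := by
  classical
  rw [NumberField.logHeight₁_eq]
  have h1 : 0 ≤ ∑ w : InfinitePlace K, (w.mult : ℝ) * Real.posLog (w x) :=
    Finset.sum_nonneg fun w _ => mul_nonneg (Nat.cast_nonneg _) Real.posLog_nonneg
  have h2 : ∑ᶠ w : FinitePlace K, Real.posLog (w x) =
      ∑ᶠ v : HeightOneSpectrum (𝓞 K), Real.posLog (FinitePlace.mk v x) :=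
    (finsum_comp_equiv FinitePlace.equivHeightOneSpectrum.symm).symm
  have h3 : wt (fun v : HeightOneSpectrum (𝓞 K) => 1 < v.valuation K x) ≤
      ∑ᶠ v : HeightOneSpectrum (𝓞 K), Real.posLog (FinitePlace.mk v x) := by
    unfold wt
    refine finsum_le_finsum' ((fin_pole x).subset (supp_sub _)) ?_ fun v => ?_
    · refine (fin_pole x).subset fun v hv => ?_
      rw [Function.mem_support] at hv
      by_contra h
      rw [Set.mem_ofPred_eq, not_lt] at h
      apply hv
      rw [Real.posLog_eq_zero_iff, abs_of_nonneg (apply_nonneg _ _)]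
      exact mk_le_one.2 h
    · by_cases h : 1 < v.valuation K x
      · rw [ind_pos (P := fun v => 1 < v.valuation K x) h]
        have h4 := norm_le_mk h
        have h5 : (1 : ℝ) < (Ideal.absNorm v.asIdeal : ℝ) := by
          exact_mod_cast HeightOneSpectrum.one_lt_absNorm v
        rw [Real.posLog_eq_log (by rw [abs_of_nonneg (apply_nonneg _ _)]; linarith)]
        exact Real.log_le_log (by linarith) h4
      · rw [ind_neg (P := fun v => 1 < v.valuation K x) h]
        exact Real.posLog_nonneg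
  rw [h2]
  linarith

end Pool.Agent.Q290.NF
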