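import Pool.Agent.Q290.NF.Belyi

/-!
# The polynomial of the points above `0` and `1` of a Belyi polynomial
-/

set_option autoImplicit false

namespace Pool.Agent.Q290.NF

open Polynomial

/-- a polynomial divides a power of a polynomial which vanishes at all its zeros -/
theorem dvd_pow_of (R : ℚ[X]) : ∀ (n : ℕ) (P : ℚ[X]), P ≠ 0 → P.natDegree ≤ n →
    (∀ x : Om, aeval x P = 0 → aeval x R = 0) → P ∣ R ^ n := by
  intro n
  induction n with
  | zero =>
    intro P hP hn _
    obtain ⟨c, hc⟩ := natDegree_eq_zero.1 (Nat.le_zero.1 hn)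
    have hc0 : c ≠ 0 := by
      rintro rfl
      exact hP (by rw [← hc, C_0])
    rw [← hc]
    exact (isUnit_C.2 (isUnit_iff_ne_zero.2 hc0)).dvd
  | succ n ih =>
    intro P hP hn h
    by_cases hx : ∃ x : Om, aeval x P = 0
    · obtain ⟨x0, hx0⟩ := hx
      obtain ⟨P1, hP1⟩ := minpoly.dvd ℚ x0 hx0
      have hp0 : minpoly ℚ x0 ≠ 0 := minpoly.ne_zero (om_int x0)
      have hP10 : P1 ≠ 0 := by
        rintro rfl
        exact hP (by rw [hP1, mul_zero])
      have hdeg : P.natDegree = (minpoly ℚ x0).natDegree + P1.natDegree := by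
        conv_lhs => rw [hP1]
        exact natDegree_mul hp0 hP10
      have hpos : 0 < (minpoly ℚ x0).natDegree := minpoly.natDegree_pos (om_int x0)
      have h1 := ih P1 hP10 (by omega) (fun x hx => h x (by rw [hP1, map_mul, hx, mul_zero]))
      have h2 : minpoly ℚ x0 ∣ R := minpoly.dvd ℚ x0 (h x0 hx0)
      rw [hP1, pow_succ, mul_comm (minpoly ℚ x0)]
      exact mul_dvd_mul h1 h2
    · have hdeg : P.natDegree = 0 := by
        by_contra hcon
        apply hx
        obtain ⟨x, hx⟩ := IsAlgClosed.exists_aeval_eq_zero Om P (by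
          rw [Ne, degree_eq_natDegree hP]
          exact_mod_cast hcon)
        exact ⟨x, hx⟩
      obtain ⟨c, hc⟩ := natDegree_eq_zero.1 hdeg
      have hc0 : c ≠ 0 := by
        rintro rfl
        exact hP (by rw [← hc, C_0])
      rw [← hc]
      exact (isUnit_C.2 (isUnit_iff_ne_zero.2 hc0)).dvd

/-- the multiplicities of the derivative -/
theorem mult_le {f : ℚ[X]} (hf : 1 ≤ f.natDegree) {x : Om}
    (h : aeval x f = 0 ∨ aeval x f = 1) :
    rootMultiplicity x ((derivative f).map (algebraMap ℚ Om)) + 1 ≤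
      rootMultiplicity x ((f * (f - 1)).map (algebraMap ℚ Om)) := by
  have hf0 : f ≠ 0 := by
    rintro rfl
    rw [natDegree_zero] at hf
    omega
  have hf1 : f - 1 ≠ 0 := by
    intro h
    rw [sub_eq_zero.1 h, natDegree_one] at hf
    omega
  have hm : (f.map (algebraMap ℚ Om)) * ((f - 1).map (algebraMap ℚ Om)) ≠ 0 :=
    mul_ne_zero (by rw [Ne, Polynomial.map_eq_zero]; exact hf0)
      (by rw [Ne, Polynomial.map_eq_zero]; exact hf1)
  rw [Polynomial.map_mul, rootMultiplicity_mul hm]
  rcases h with h | h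
  · have hr : (f.map (algebraMap ℚ Om)).IsRoot x := by
      rw [IsRoot.def, eval_map, ← aeval_def]
      exact h
    have h1 := derivative_rootMultiplicity_of_root hr
    rw [derivative_map] at h1
    have h2 : 0 < rootMultiplicity x (f.map (algebraMap ℚ Om)) :=
      (rootMultiplicity_pos (by rw [Ne, Polynomial.map_eq_zero]; exact hf0)).2 hr
    omega
  · have hr : ((f - 1).map (algebraMap ℚ Om)).IsRoot x := by
      rw [IsRoot.def, eval_map, ← aeval_def, map_sub, map_one, h, sub_self]
    have h1 := derivative_rootMultiplicity_of_root hr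
    rw [derivative_map, derivative_sub, derivative_one, sub_zero] at h1
    have h2 : 0 < rootMultiplicity x ((f - 1).map (algebraMap ℚ Om)) :=
      (rootMultiplicity_pos (by rw [Ne, Polynomial.map_eq_zero]; exact hf1)).2 hr
    omega

theorem radical_poly {f : ℚ[X]} (hf : 1 ≤ f.natDegree)
    (hcrit : ∀ x : Om, aeval x (derivative f) = 0 → aeval x f = 0 ∨ aeval x f = 1) :
    ∃ R : ℚ[X], f * (f - 1) = derivative f * R ∧ R.natDegree = f.natDegree + 1 ∧
      (∀ x : Om, aeval x f = 0 ∨ aeval x f = 1 → aeval x R = 0) ∧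
      ∃ M : ℕ, derivative f ∣ R ^ M := by
  classical
  have hf0 : f ≠ 0 := by
    rintro rfl
    rw [natDegree_zero] at hf
    omega
  have hf1 : f - 1 ≠ 0 := by
    intro h
    rw [sub_eq_zero.1 h, natDegree_one] at hf
    omega
  have hd0 : derivative f ≠ 0 := by
    intro h
    have := natDegree_eq_zero_of_derivative_eq_zero h
    omega
  have hW0 : f * (f - 1) ≠ 0 := mul_ne_zero hf0 hf1
  have hWm : (f * (f - 1)).map (algebraMap ℚ Om) ≠ 0 := by
    rw [Ne, Polynomial.map_eq_zero]
    exact hW0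
  have hdm : (derivative f).map (algebraMap ℚ Om) ≠ 0 := by
    rw [Ne, Polynomial.map_eq_zero]
    exact hd0
  have hdvd : derivative f ∣ f * (f - 1) := by
    rw [← map_dvd_map' (algebraMap ℚ Om)]
    have hs : ((derivative f).map (algebraMap ℚ Om)).Splits :=
      IsAlgClosed.splits _
    have h1 := hs.eq_prod_roots
    rw [h1]
    have hlc : IsUnit (C ((derivative f).map (algebraMap ℚ Om)).leadingCoeff) :=
      isUnit_C.2 (isUnit_iff_ne_zero.2 (leadingCoeff_ne_zero.2 hdm))
    rw [hlc.mul_left_dvd]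
    rw [Multiset.prod_X_sub_C_dvd_iff_le_roots hWm, Multiset.le_iff_count]
    intro x
    rw [count_roots, count_roots]
    by_cases hx : aeval x (derivative f) = 0
    · have := mult_le hf (hcrit x hx)
      omega
    · have h2 : rootMultiplicity x ((derivative f).map (algebraMap ℚ Om)) = 0 := by
        apply rootMultiplicity_eq_zero
        rw [IsRoot.def, eval_map, ← aeval_def]
        exact hx
      rw [h2]
      exact Nat.zero_le _
  obtain ⟨R, hR⟩ := hdvd
  have hR0 : R ≠ 0 := by
    rintro rfl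
    exact hW0 (by rw [hR, mul_zero])
  have hroots : ∀ x : Om, aeval x f = 0 ∨ aeval x f = 1 → aeval x R = 0 := by
    intro x hx
    have h1 := mult_le hf hx
    have h3 : ((derivative f).map (algebraMap ℚ Om)) * (R.map (algebraMap ℚ Om)) ≠ 0 := by
      rw [← Polynomial.map_mul, ← hR]
      exact hWm
    rw [hR, Polynomial.map_mul, rootMultiplicity_mul h3] at h1
    have h4 : 0 < rootMultiplicity x (R.map (algebraMap ℚ Om)) := by omega
    have h5 := (rootMultiplicity_pos (by rw [Ne, Polynomial.map_eq_zero]; exact hR0)).1 h4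
    rw [IsRoot.def, eval_map, ← aeval_def] at h5
    exact h5
  refine ⟨R, hR, ?_, hroots, _, dvd_pow_of R _ (derivative f) hd0 le_rfl
    fun x hx => hroots x (hcrit x hx)⟩
  have h1 : (f * (f - 1)).natDegree = f.natDegree + f.natDegree := by
    rw [natDegree_mul hf0 hf1]
    congr 1
    have : (1 : ℚ[X]) = C 1 := C_1.symm
    rw [this, natDegree_sub_C]
  have h2 : (f * (f - 1)).natDegree = (derivative f).natDegree + R.natDegree := by
    rw [hR]
    exact natDegree_mul hd0 hR0
  have h3 : (derivative f).natDegree = f.natDegree - 1 := natDegree_derivative f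
  omega

/-- **the Belyi polynomial of a finite subset of a number field** -/
theorem belyi_field (K : Type) [Field K] [NumberField K] (A : Finset K) :
    ∃ (f R : ℚ[X]) (G : K[X]) (M : ℕ), 1 ≤ f.natDegree ∧ f * (f - 1) = derivative f * R ∧
      derivative f ∣ R ^ M ∧ G ≠ 0 ∧
      R.map (algebraMap ℚ K) = (∏ α ∈ A, (X - C α)) * G ∧
      A.card + G.natDegree = f.natDegree + 1 := by
  classical
  obtain ⟨ι⟩ : Nonempty (K →ₐ[ℚ] Om) := ⟨IsAlgClosed.lift⟩
  obtain ⟨f, hf, hT, hcrit⟩ := belyi (A.image ι)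
  obtain ⟨R, hR, hRd, hRr, M, hM⟩ := radical_poly hf hcrit
  have hRK : ∀ α ∈ A, aeval α R = 0 := by
    intro α hα
    have h1 := hRr (ι α) (hT (ι α) (Finset.mem_image_of_mem _ hα))
    have h2 : aeval (ι α) R = ι (aeval α R) := aeval_algHom_apply ι α R
    rw [h2] at h1
    exact (map_eq_zero ι).1 h1
  have hR0 : R.map (algebraMap ℚ K) ≠ 0 := by
    rw [Ne, Polynomial.map_eq_zero]
    rintro rfl
    rw [natDegree_zero] at hRd
    omega
  have hdvd : (∏ α ∈ A, (X - C α)) ∣ R.map (algebraMap ℚ K) := by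
    have h1 : (∏ α ∈ A, (X - C α) : K[X]) = (A.val.map fun α => X - C α).prod := rfl
    rw [h1, Multiset.prod_X_sub_C_dvd_iff_le_roots hR0, Multiset.le_iff_subset A.nodup]
    intro α hα
    rw [mem_roots hR0, IsRoot.def, eval_map, ← aeval_def]
    exact hRK α hα
  obtain ⟨G, hG⟩ := hdvd
  have hG0 : G ≠ 0 := by
    rintro rfl
    exact hR0 (by rw [hG, mul_zero])
  refine ⟨f, R, G, M, hf, hR, hM, hG0, hG, ?_⟩
  have hp0 : (∏ α ∈ A, (X - C α) : K[X]) ≠ 0 :=
    Finset.prod_ne_zero_iff.2 fun α _ => X_sub_C_ne_zero α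
  have h2 : (R.map (algebraMap ℚ K)).natDegree = R.natDegree := natDegree_map _
  have h3 : (∏ α ∈ A, (X - C α) : K[X]).natDegree = A.card := by
    rw [natDegree_prod_of_monic _ _ fun α _ => monic_X_sub_C α]
    simp
  rw [hG, natDegree_mul hp0 hG0, h3, hRd] at h2
  omega

end Pool.Agent.Q290.NF
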