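import Pool.Agent.Q290.NF.Thin

/-!
# A polynomial bound for the number of elements of bounded height
-/

set_option autoImplicit false

namespace Pool.Agent.Q290.NF

open NumberField IsDedekindDomain Height

variable {K : Type} [Field K] [NumberField K]

theorem place_le (w : InfinitePlace K) (x : K) : w x ≤ Real.exp (logHeight₁ x) := by
  rw [NumberField.logHeight₁_eq]
  have h1 : (w.mult : ℝ) * Real.posLog (w x) ≤ ∑ w : InfinitePlace K, (w.mult : ℝ) *
      Real.posLog (w x) :=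
    Finset.single_le_sum (f := fun w : InfinitePlace K => (w.mult : ℝ) * Real.posLog (w x))
      (fun v _ => mul_nonneg (Nat.cast_nonneg _) Real.posLog_nonneg) (Finset.mem_univ w)
  have h2 : 0 ≤ ∑ᶠ w : FinitePlace K, Real.posLog (w x) :=
    finsum_nonneg fun _ => Real.posLog_nonneg
  have h3 : (1 : ℝ) ≤ w.mult := by exact_mod_cast w.mult_pos
  have h4 : Real.posLog (w x) ≤ (w.mult : ℝ) * Real.posLog (w x) :=
    le_mul_of_one_le_left Real.posLog_nonneg h3
  have h5 : w x ≤ Real.exp (Real.posLog (w x)) := by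
    rcases (apply_nonneg w x).eq_or_lt with h | h
    · rw [← h]; exact (Real.exp_pos _).le
    · calc w x = Real.exp (Real.log (w x)) := (Real.exp_log h).symm
        _ ≤ _ := Real.exp_le_exp.2 (le_max_right _ _)
  exact h5.trans (Real.exp_le_exp.2 (by linarith))

/-- the floors of the coordinates -/
noncomputable def flo (n : ℕ) (x : K) (w : InfinitePlace K) : ℤ × ℤ :=
  (⌊2 * (w.embedding (n * x)).re⌋, ⌊2 * (w.embedding (n * x)).im⌋)

theorem flo_inj {n : ℕ} (hn : n ≠ 0) {x y : K} (hx : IsIntegral ℤ (n * x))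
    (hy : IsIntegral ℤ (n * y)) (h : flo n x = flo n y) : x = y := by
  obtain ⟨a, ha⟩ : ∃ a : 𝓞 K, (a : K) = n * x - n * y := ⟨⟨_, hx.sub hy⟩, rfl⟩
  have hlt : ∀ w : InfinitePlace K, w a < 1 := by
    intro w
    rw [← w.norm_embedding_eq, ha, map_sub]
    have h1 := congrFun h w
    unfold flo at h1
    rw [Prod.mk.injEq] at h1
    have h2 := Int.abs_sub_lt_one_of_floor_eq_floor h1.1
    have h3 := Int.abs_sub_lt_one_of_floor_eq_floor h1.2
    rw [← mul_sub, abs_mul, abs_two, ← Complex.sub_re] at h2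
    rw [← mul_sub, abs_mul, abs_two, ← Complex.sub_im] at h3
    have h4 := Complex.norm_le_abs_re_add_abs_im
      (w.embedding (n * x) - w.embedding (n * y))
    linarith
  have h0 : a = 0 := by
    by_contra h0
    obtain ⟨w⟩ : Nonempty (InfinitePlace K) := inferInstance
    have := InfinitePlace.one_le_of_lt_one (w := w) h0 fun z _ => hlt z
    exact absurd (hlt w) (not_lt.2 this)
  rw [h0] at ha
  have ha : (0 : K) = n * x - n * y := ha
  have hn' : (n : K) ≠ 0 := Nat.cast_ne_zero.2 hn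
  have h1 : (n : K) * (x - y) = 0 := by rw [mul_sub]; exact ha.symm
  rcases mul_eq_zero.1 h1 with h2 | h2
  · exact absurd h2 hn'
  · exact sub_eq_zero.1 h2

theorem card_place : Fintype.card (InfinitePlace K) ≤ Module.finrank ℚ K := by
  rw [← InfinitePlace.sum_mult_eq (K := K), ← Finset.card_univ, Finset.card_eq_sum_ones]
  exact Finset.sum_le_sum fun w _ => w.mult_pos

/-- **polynomial Northcott** -/
theorem north {B : ℝ} (hB : 0 ≤ B) :
    ({x : K | logHeight₁ x ≤ B}.ncard : ℝ) ≤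
      50 ^ (5 * Module.finrank ℚ K) * Real.exp ((5 * Module.finrank ℚ K) * B) := by
  classical
  obtain ⟨d, hd⟩ : ∃ d : ℕ, d = Module.finrank ℚ K := ⟨_, rfl⟩
  have hd1 : 1 ≤ d := by rw [hd]; exact Module.finrank_pos
  obtain ⟨N, hN⟩ : ∃ N : ℕ, N = ⌈Real.exp B⌉₊ := ⟨_, rfl⟩
  have hNe : Real.exp B ≤ N := by rw [hN]; exact Nat.le_ceil _
  have he1 : 1 ≤ Real.exp B := Real.one_le_exp hB
  have hN1 : 1 ≤ N := by
    have : (1 : ℝ) ≤ N := he1.trans hNe
    exact_mod_cast this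
  have hN2 : (N : ℝ) ≤ 2 * Real.exp B := by
    have := Nat.ceil_lt_add_one (Real.exp_pos B).le
    rw [← hN] at this
    linarith
  have hex : ∀ x : K, ∃ n : ℕ, n ≠ 0 ∧ n ≤ mulHeight₁ x ∧ IsIntegral ℤ (n * x) :=
    NumberField.exists_nat_le_mulHeight₁
  choose nn hnn using hex
  obtain ⟨F, hF⟩ : ∃ F : Finset (ℕ × (InfinitePlace K → ℤ × ℤ)), F =
    (Finset.Icc 1 N) ×ˢ (Fintype.piFinset fun _ : InfinitePlace K =>
      (Finset.Icc (-(2 * (N : ℤ) ^ 2)) (2 * (N : ℤ) ^ 2)) ×ˢ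
        (Finset.Icc (-(2 * (N : ℤ) ^ 2)) (2 * (N : ℤ) ^ 2))) := ⟨_, rfl⟩
  have hle : ∀ x : K, logHeight₁ x ≤ B → nn x ≤ N := by
    intro x hx
    have h1 := (hnn x).2.1
    have h2 : mulHeight₁ x ≤ Real.exp B := by
      rw [logHeight₁_eq_log_mulHeight₁] at hx
      rwa [← Real.log_le_iff_le_exp (mulHeight₁_pos x)]
    have h3 : (nn x : ℝ) ≤ N := h1.trans (h2.trans hNe)
    exact_mod_cast h3
  have hmaps : ∀ x ∈ {x : K | logHeight₁ x ≤ B}, (nn x, flo (nn x) x) ∈ (F : Set _) := by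
    intro x hx
    rw [Finset.mem_coe, hF, Finset.mem_product, Fintype.mem_piFinset]
    refine ⟨Finset.mem_Icc.2 ⟨Nat.one_le_iff_ne_zero.2 (hnn x).1, hle x hx⟩, fun w => ?_⟩
    have h1 : ‖w.embedding (nn x * x)‖ ≤ (N : ℝ) ^ 2 := by
      rw [w.norm_embedding_eq, map_mul, sq]
      have h2 := place_le w x
      have h3 : w x ≤ N := h2.trans ((Real.exp_le_exp.2 hx).trans hNe)
      have h4 : w ((nn x : ℕ) : K) = ((nn x : ℕ) : ℝ) := by
        rw [← InfinitePlace.norm_embedding_eq, map_natCast, Complex.norm_natCast]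
      rw [h4]
      have h5 : (nn x : ℝ) ≤ N := by exact_mod_cast hle x hx
      exact mul_le_mul h5 h3 (apply_nonneg _ _) (Nat.cast_nonneg _)
    have h2 := (Complex.abs_re_le_norm (w.embedding (nn x * x))).trans h1
    have h3 := (Complex.abs_im_le_norm (w.embedding (nn x * x))).trans h1
    rw [abs_le] at h2 h3
    have key : ∀ y : ℝ, -(N : ℝ) ^ 2 ≤ y ∧ y ≤ (N : ℝ) ^ 2 →
        ⌊2 * y⌋ ∈ Finset.Icc (-(2 * (N : ℤ) ^ 2)) (2 * (N : ℤ) ^ 2) := by
      intro y hy
      rw [Finset.mem_Icc]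
      constructor
      · rw [Int.le_floor]
        push_cast
        linarith [hy.1]
      · have h4 : ⌊2 * y⌋ ≤ ⌊((2 * (N : ℤ) ^ 2 : ℤ) : ℝ)⌋ := by
          apply Int.floor_le_floor
          push_cast
          linarith [hy.2]
        rwa [Int.floor_intCast] at h4
    exact Finset.mem_product.2 ⟨key _ h2, key _ h3⟩
  have hinj : Set.InjOn (fun x : K => (nn x, flo (nn x) x)) {x : K | logHeight₁ x ≤ B} := by
    intro x _ y _ h
    rw [Prod.mk.injEq] at h
    obtain ⟨h1, h2⟩ := h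
    rw [← h1] at h2
    have h3 := (hnn y).2.2
    rw [← h1] at h3
    exact flo_inj (hnn x).1 (hnn x).2.2 h3 h2
  have hcard := Set.ncard_le_ncard_of_injOn (fun x : K => (nn x, flo (nn x) x)) hmaps hinj
    F.finite_toSet
  rw [Set.ncard_coe_finset] at hcard
  have hFc : F.card ≤ (5 * N ^ 2) ^ (2 * d) * N := by
    rw [hF, Finset.card_product, Fintype.card_piFinset, Finset.prod_const, Finset.card_univ,
      Finset.card_product, Int.card_Icc, Nat.card_Icc]
    have h1 : (2 * (N : ℤ) ^ 2 + 1 - -(2 * (N : ℤ) ^ 2)).toNat ≤ 5 * N ^ 2 := by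
      have h2 : (2 * (N : ℤ) ^ 2 + 1 - -(2 * (N : ℤ) ^ 2)) ≤ ((5 * N ^ 2 : ℕ) : ℤ) := by
        push_cast
        have : (1 : ℤ) ≤ (N : ℤ) ^ 2 := by
          have : (1 : ℤ) ≤ N := by exact_mod_cast hN1
          nlinarith
        linarith
      rw [Int.toNat_le]
      exact h2
    have h3 : N + 1 - 1 = N := by omega
    rw [h3, mul_comm]
    refine Nat.mul_le_mul_right _ ?_
    rw [pow_mul, pow_two (5 * N ^ 2)]
    refine (Nat.pow_le_pow_left (Nat.mul_le_mul h1 h1) _).trans ?_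
    refine Nat.pow_le_pow_right (by nlinarith [Nat.one_le_pow 2 N hN1]) ?_
    rw [hd]
    exact card_place
  have hr : ({x : K | logHeight₁ x ≤ B}.ncard : ℝ) ≤ (5 * (N : ℝ) ^ 2) ^ (2 * d) * N := by
    have := hcard.trans hFc
    exact_mod_cast this
  refine hr.trans ?_
  obtain ⟨E, hE⟩ : ∃ E : ℝ, E = Real.exp B := ⟨_, rfl⟩
  rw [← hE] at hN2 he1
  have hN0 : (0 : ℝ) ≤ N := Nat.cast_nonneg _
  have h1 : (5 * (N : ℝ) ^ 2) ^ (2 * d) * N ≤ (5 * (2 * E) ^ 2) ^ (2 * d) * (2 * E) := by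
    gcongr
  refine h1.trans ?_
  have h2 : Real.exp ((5 * Module.finrank ℚ K) * B) = E ^ (5 * d) := by
    rw [hE, ← Real.exp_nat_mul, hd]
    congr 1
    push_cast
    ring
  rw [h2, ← hd]
  have h3 : (5 * (2 * E) ^ 2) ^ (2 * d) * (2 * E) = (20 ^ (2 * d) * 2) * E ^ (4 * d + 1) := by
    rw [pow_add, pow_one, show 4 * d = 2 * (2 * d) by ring, pow_mul E 2]
    have : (5 * (2 * E) ^ 2) = 20 * E ^ 2 := by ring
    rw [this, mul_pow]
    ring
  rw [h3]
  have h4 : E ^ (4 * d + 1) ≤ E ^ (5 * d) := pow_le_pow_right₀ he1 (by omega)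
  have h5 : (20 : ℝ) ^ (2 * d) * 2 ≤ 50 ^ (5 * d) := by
    have h6 : (20 : ℝ) ^ (2 * d) ≤ 50 ^ (2 * d) := by gcongr; norm_num
    have h7 : (2 : ℝ) ≤ 50 ^ (3 * d) := by
      calc (2 : ℝ) ≤ 50 ^ 1 := by norm_num
        _ ≤ _ := pow_le_pow_right₀ (by norm_num) (by omega)
    calc (20 : ℝ) ^ (2 * d) * 2 ≤ 50 ^ (2 * d) * 50 ^ (3 * d) := by gcongr
      _ = 50 ^ (5 * d) := by rw [← pow_add]; congr 1; ring
  exact mul_le_mul h5 h4 (by positivity) (by positivity)

/-- **the values of the Chebyshev polynomial are sparse** -/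
theorem sparse (k : ℕ) {B : ℝ} (hB : 0 ≤ B) :
    ({t : K | (∃ u : K, t = (tv k u)⁻¹) ∧ logHeight₁ t ≤ B}.ncard : ℝ) ≤
      50 ^ (5 * Module.finrank ℚ K) * Real.exp ((5 * Module.finrank ℚ K) *
        (B / 2 ^ k + 2 * (Module.finrank ℚ K * Real.log 2))) := by
  classical
  have hl : 0 ≤ Module.finrank ℚ K * Real.log 2 :=
    mul_nonneg (Nat.cast_nonneg _) (Real.log_nonneg (by norm_num))
  have h2k : (0 : ℝ) < 2 ^ k := by positivity
  have hB' : 0 ≤ B / 2 ^ k + 2 * (Module.finrank ℚ K * Real.log 2) := by positivity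
  refine le_trans ?_ (north hB')
  have hfin : {x : K | logHeight₁ x ≤ B / 2 ^ k + 2 * (Module.finrank ℚ K * Real.log 2)}.Finite :=
    NumberField.finite_setOfPred_logHeight₁_le K _
  have hsub : {t : K | (∃ u : K, t = (tv k u)⁻¹) ∧ logHeight₁ t ≤ B} ⊆
      (fun u => (tv k u)⁻¹) ''
        {x : K | logHeight₁ x ≤ B / 2 ^ k + 2 * (Module.finrank ℚ K * Real.log 2)} := by
    rintro t ⟨⟨u, rfl⟩, ht⟩
    refine ⟨u, ?_, rfl⟩
    rw [logHeight₁_inv] at ht
    have h1 := height_tv k u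
    rw [Set.mem_ofPred_eq]
    have h2 : 2 ^ k * logHeight₁ u ≤
        2 ^ k * (B / 2 ^ k + 2 * (Module.finrank ℚ K * Real.log 2)) := by
      rw [mul_add, mul_div_cancel₀ _ h2k.ne']
      linarith
    exact le_of_mul_le_mul_left h2 h2k
  have h1 := (Set.ncard_le_ncard hsub (hfin.image _)).trans (Set.ncard_image_le hfin)
  exact_mod_cast h1

end Pool.Agent.Q290.NF
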