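import Pool.Agent.Q290.NF.Count

/-!
# Heights of integers and of roots of a polynomial, in all number fields at once
-/

set_option autoImplicit false

namespace Pool.Agent.Q290.NF

open NumberField IsDedekindDomain Height Polynomial

variable {K : Type} [Field K] [NumberField K]

/-- integral elements -/
theorem height_int {x : K} (hx : IsIntegral ℤ x) {B : ℝ} (hB : 1 ≤ B)
    (h : ∀ w : InfinitePlace K, w x ≤ B) : logHeight₁ x ≤ Module.finrank ℚ K * Real.log B := by
  have hna : ∀ w : FinitePlace K, w x ≤ 1 := by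
    intro w
    have h : w.maximalIdeal.valuation K (algebraMap (𝓞 K) K ⟨x, hx⟩) ≤ 1 :=
      w.maximalIdeal.valuation_le_one (K := K) (⟨x, hx⟩ : 𝓞 K)
    have h2 := mk_le_one.2 h
    rwa [FinitePlace.mk_maximalIdeal] at h2
  rw [NumberField.logHeight₁_eq]
  have h1 : ∑ᶠ w : FinitePlace K, Real.posLog (w x) = 0 := by
    refine finsum_eq_zero_of_forall_eq_zero fun w => ?_
    rw [Real.posLog_eq_zero_iff, abs_of_nonneg (apply_nonneg _ _)]
    exact hna w
  rw [h1, add_zero]
  have h2 : ∀ w : InfinitePlace K, (w.mult : ℝ) * Real.posLog (w x) ≤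
      (w.mult : ℝ) * Real.log B := by
    intro w
    refine mul_le_mul_of_nonneg_left ?_ (Nat.cast_nonneg _)
    rw [← Real.posLog_eq_log (by rw [abs_of_pos (by linarith)]; exact hB)]
    exact Real.posLog_le_posLog (apply_nonneg _ _) (h w)
  refine (Finset.sum_le_sum fun w _ => h2 w).trans (le_of_eq ?_)
  rw [← Finset.sum_mul]
  congr 1
  exact_mod_cast InfinitePlace.sum_mult_eq

theorem place_nat (w : InfinitePlace K) (n : ℕ) : w (n : K) = n := by
  rw [← InfinitePlace.norm_embedding_eq, map_natCast, Complex.norm_natCast]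

theorem height_nat {n : ℕ} (hn : n ≠ 0) :
    logHeight₁ (n : K) ≤ Module.finrank ℚ K * Real.log n := by
  refine height_int (isIntegral_algebraMap (R := ℤ) (A := K) (x := (n : ℤ)) |> fun h => ?_)
    (by exact_mod_cast Nat.one_le_iff_ne_zero.2 hn) fun w => (place_nat w n).le
  simpa using h

/-- the primes dividing an integer -/
theorem wt_nat {n : ℕ} (hn : n ≠ 0) :
    wt (fun v : HeightOneSpectrum (𝓞 K) => v.valuation K (n : K) < 1) ≤
      Module.finrank ℚ K * Real.log n := by
  have h0 : (n : K) ≠ 0 := Nat.cast_ne_zero.2 hn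
  have h1 := pole_le (K := K) (n : K)⁻¹
  rw [logHeight₁_inv] at h1
  refine le_trans ?_ (h1.trans (height_nat hn))
  refine wt_mono (fin_pole _) fun v hv => ?_
  rw [map_inv₀]
  exact (one_lt_inv₀ (zero_lt_iff.2 ((Valuation.ne_zero_iff _).2 h0))).2 hv

/-- **roots of a polynomial** -/
theorem height_root {G : ℚ[X]} (hG : G ≠ 0) : ∃ c : ℝ, 0 ≤ c ∧
    ∀ (L : Type) [Field L] [NumberField L] (x : L), aeval x G = 0 →
      logHeight₁ x ≤ Module.finrank ℚ L * c := by
  obtain ⟨⟨b, hb0⟩, hb⟩ := IsLocalization.integerNormalization_map_to_map (nonZeroDivisors ℤ) G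
  obtain ⟨H, hH⟩ : ∃ H : ℤ[X], H = IsLocalization.integerNormalization (nonZeroDivisors ℤ) G :=
    ⟨_, rfl⟩
  rw [← hH] at hb
  have hb1 : (b : ℤ) ≠ 0 := nonZeroDivisors.ne_zero hb0
  have hH0 : H ≠ 0 := by
    intro h0
    rw [h0, Polynomial.map_zero] at hb
    have hb2 : b • G = 0 := hb.symm
    rcases smul_eq_zero.1 hb2 with h | h
    · exact hb1 h
    · exact hG h
  obtain ⟨a, ha⟩ : ∃ a : ℤ, a = H.leadingCoeff := ⟨_, rfl⟩
  have ha0 : a ≠ 0 := by rw [ha]; exact leadingCoeff_ne_zero.2 hH0
  obtain ⟨B, hB⟩ : ∃ B : ℝ, B = ((H.map (Int.castRingHom ℂ)).cauchyBound : ℝ) := ⟨_, rfl⟩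
  have hB0 : 0 ≤ B := by rw [hB]; exact NNReal.coe_nonneg _
  have hab : (1 : ℝ) ≤ a.natAbs := by exact_mod_cast Int.natAbs_pos.2 ha0
  refine ⟨Real.log (1 + a.natAbs * B) + Real.log a.natAbs, ?_, ?_⟩
  · have h1 : 0 ≤ Real.log (1 + a.natAbs * B) := Real.log_nonneg (by nlinarith)
    have h2 : 0 ≤ Real.log a.natAbs := Real.log_nonneg hab
    linarith
  · intro L _ _ x hx
    have hHx : aeval x H = 0 := by
      have h1 : aeval x (H.map (algebraMap ℤ ℚ)) = 0 := by
        rw [hb]
        have : aeval x (b • G) = b • aeval x G := by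
          rw [zsmul_eq_mul, map_mul, map_intCast, zsmul_eq_mul]
        have h2 : aeval x ((⟨b, hb0⟩ : nonZeroDivisors ℤ) • G) = 0 := by
          have h3 : ((⟨b, hb0⟩ : nonZeroDivisors ℤ) • G) = b • G := rfl
          rw [h3, this, hx, smul_zero]
        exact h2
      rwa [aeval_map_algebraMap] at h1
    have hint : IsIntegral ℤ ((a : L) * x) := by
      have h1 := isIntegral_leadingCoeff_smul H x hHx
      rw [← ha, zsmul_eq_mul] at h1
      exact h1
    have haL : (a : L) ≠ 0 := Int.cast_ne_zero.2 ha0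
    have hwa : ∀ w : InfinitePlace L, w (a : L) = a.natAbs := by
      intro w
      rw [← InfinitePlace.norm_embedding_eq, map_intCast, Complex.norm_intCast,
        Nat.cast_natAbs, Int.cast_abs]
    have hw : ∀ w : InfinitePlace L, w ((a : L) * x) ≤ 1 + a.natAbs * B := by
      intro w
      rw [map_mul, hwa]
      have h1 : w x ≤ B := by
        rw [← w.norm_embedding_eq, hB]
        have h2 : (H.map (Int.castRingHom ℂ)).IsRoot (w.embedding x) := by
          rw [IsRoot.def, eval_map]
          have h3 : eval₂ (Int.castRingHom ℂ) (w.embedding x) H = w.embedding (aeval x H) := by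
            rw [aeval_def, hom_eval₂]
            congr 1
            exact RingHom.ext_int _ _
          rw [h3, hHx, map_zero]
        have h4 : H.map (Int.castRingHom ℂ) ≠ 0 := by
          rw [Ne, Polynomial.map_eq_zero_iff (RingHom.injective_int _)]
          exact hH0
        have h5 := h2.norm_lt_cauchyBound h4
        exact le_of_lt h5
      have := mul_le_mul_of_nonneg_left h1 (Nat.cast_nonneg (α := ℝ) a.natAbs)
      linarith
    have h1 := height_int hint (by nlinarith : (1 : ℝ) ≤ 1 + a.natAbs * B) hw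
    have h2 : logHeight₁ (a : L) ≤ Module.finrank ℚ L * Real.log a.natAbs := by
      refine height_int ?_ hab fun w => (hwa w).le
      have := isIntegral_algebraMap (R := ℤ) (A := L) (x := a)
      simpa using this
    have h3 := logHeight₁_mul_le ((a : L) * x) (a : L)⁻¹
    rw [logHeight₁_inv] at h3
    have e : (a : L) * x * (a : L)⁻¹ = x := by field_simp
    rw [e] at h3
    rw [mul_add]
    linarith

end Pool.Agent.Q290.NF
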