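import Pool.Agent.Q290.NF.KeyCurve
import Pool.Agent.Q290.NF.Root

/-!
# From the line to curves: all points over all number fields
-/

set_option autoImplicit false

namespace Pool.Agent.Q290.NF

open NumberField IsDedekindDomain Height Polynomial

/-- elements of a subfield -/
theorem height_sub (K : Type) [Field K] [NumberField K] (a : K) : ∃ c : ℝ, 0 ≤ c ∧
    ∀ (L : Type) [Field L] [NumberField L] [Algebra K L],
      logHeight₁ (algebraMap K L a) ≤ Module.finrank ℚ L * c := by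
  obtain ⟨c, hc, h⟩ := height_root (minpoly.ne_zero (Algebra.IsIntegral.isIntegral (R := ℚ) a))
  refine ⟨c, hc, fun L _ _ _ => h L _ ?_⟩
  rw [aeval_algebraMap_apply, minpoly.aeval, map_zero]

theorem zero_wt {L : Type} [Field L] [NumberField L] {x : L} (hx : x ≠ 0) :
    wt (fun v : HeightOneSpectrum (𝓞 L) => v.valuation L x < 1) ≤ logHeight₁ x := by
  have h1 := pole_le (K := L) x⁻¹
  rw [logHeight₁_inv] at h1
  refine le_trans ?_ h1
  refine wt_mono (fin_pole _) fun v hv => ?_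
  rw [map_inv₀]
  exact (one_lt_inv₀ (zero_lt_iff.2 ((Valuation.ne_zero_iff _).2 hx))).2 hv

/-- `t` and some `a_j` have the same reduction at `w` -/
def NearA {K L : Type} [Field K] [Field L] [NumberField L] [Algebra K L] {q : ℕ}
    (a : Fin q → K) (t : L) (w : HeightOneSpectrum (𝓞 L)) : Prop :=
  w.valuation L t ≤ 1 ∧ ∃ j, w.valuation L (t - algebraMap K L (a j)) < 1

/-- the point of the curve and the divisor have the same reduction at `w` -/
def MeetD {K L A : Type} [Field K] [Field L] [NumberField L] [Algebra K L] [CommRing A]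
    [Algebra K A] [Algebra K[X] A] {q : ℕ}
    (a : Fin q → K) (u : Fin q → ℕ) (y : ∀ j, Fin (u j) → A) (φ : A →ₐ[K] L)
    (w : HeightOneSpectrum (𝓞 L)) : Prop :=
  w.valuation L (φ (algebraMap K[X] A X)) ≤ 1 ∧
    ∃ j, w.valuation L (φ (algebraMap K[X] A X) - algebraMap K L (a j)) < 1 ∧
      ∀ i, w.valuation L (φ (y j i)) < 1

theorem nearA_fin {K L : Type} [Field K] [Field L] [NumberField L] [Algebra K L] {q : ℕ}
    {a : Fin q → K} {t : L} (h : ∀ j, t ≠ algebraMap K L (a j)) :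
    {w : HeightOneSpectrum (𝓞 L) | NearA a t w}.Finite := by
  refine (Set.finite_iUnion fun j => fin_zero (sub_ne_zero.2 (h j))).subset ?_
  rintro w ⟨-, j, hj⟩
  exact Set.mem_iUnion.2 ⟨j, hj⟩

/-- the trivial bound -/
theorem nearA_le {K L : Type} [Field K] [Field L] [NumberField L] [Algebra K L] {q : ℕ}
    {a : Fin q → K} {t : L} (h : ∀ j, t ≠ algebraMap K L (a j)) :
    wt (fun w => NearA a t w) ≤ ∑ j, logHeight₁ (t - algebraMap K L (a j)) := by
  classical
  have key : ∀ s : Finset (Fin q), wt (fun w : HeightOneSpectrum (𝓞 L) =>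
      ∃ j ∈ s, w.valuation L (t - algebraMap K L (a j)) < 1) ≤
      ∑ j ∈ s, logHeight₁ (t - algebraMap K L (a j)) := by
    intro s
    induction s using Finset.induction_on with
    | empty =>
      rw [Finset.sum_empty]
      unfold wt
      refine le_of_eq (finsum_eq_zero_of_forall_eq_zero fun v => ind_neg ?_)
      rintro ⟨j, hj, -⟩
      exact Finset.notMem_empty j hj
    | insert j s hj ih =>
      rw [Finset.sum_insert hj]
      have h1 := fin_zero (sub_ne_zero.2 (h j))
      have h2 : {w : HeightOneSpectrum (𝓞 L) |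
          ∃ j ∈ s, w.valuation L (t - algebraMap K L (a j)) < 1}.Finite := by
        refine (Set.finite_iUnion fun j => fin_zero (sub_ne_zero.2 (h j))).subset ?_
        rintro w ⟨j, -, hj⟩
        exact Set.mem_iUnion.2 ⟨j, hj⟩
      refine (wt_mono (h1.union h2) ?_).trans ((wt_or_le h1 h2).trans
        (add_le_add (zero_wt (sub_ne_zero.2 (h j))) ih))
      rintro w ⟨i, hi, hw⟩
      rcases Finset.mem_insert.1 hi with rfl | hi
      · exact Or.inl hw
      · exact Or.inr ⟨i, hi, hw⟩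
  refine (wt_mono ?_ ?_).trans (key Finset.univ)
  · refine (Set.finite_iUnion fun j => fin_zero (sub_ne_zero.2 (h j))).subset ?_
    rintro w ⟨j, -, hj⟩
    exact Set.mem_iUnion.2 ⟨j, hj⟩
  · rintro w ⟨-, j, hj⟩
    exact ⟨j, Finset.mem_univ _, hj⟩

theorem val_nat_lt {L : Type} [Field L] [NumberField L] {w : HeightOneSpectrum (𝓞 L)} {n : ℕ}
    (h : (n : 𝓞 L) ∈ w.asIdeal) : w.valuation L (n : L) < 1 := by
  have h1 : w.valuation L (algebraMap (𝓞 L) L (n : 𝓞 L)) < 1 :=
    (w.valuation_lt_one_iff_mem (K := L) (n : 𝓞 L)).2 h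
  rwa [map_natCast] at h1

/-- **the truncated counting function on a curve**: all points over all number fields -/
theorem curve_key (K A : Type) [Field K] [NumberField K] [CommRing A] [IsDedekindDomain A]
    [Algebra K A] [Algebra K[X] A] [IsScalarTower K K[X] A] [Module.Finite K[X] A]
    [FaithfulSMul K[X] A] {q : ℕ} (hq : 1 ≤ q) (a : Fin q → K) (u : Fin q → ℕ)
    (y : ∀ j, Fin (u j) → A) (E : Fin q → Ideal A) (hE : ∀ j, E j ≠ ⊥)
    (hyE : ∀ j i, ∀ e ∈ E j,
      y j i * e ∈ (Ideal.span {algebraMap K[X] A X - algebraMap K A (a j)}).radical)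
    (S : Finset (HeightOneSpectrum (𝓞 K))) (ε : ℝ) (hε : 0 < ε) :
    ∃ C : ℝ, 0 ≤ C ∧
      ∀ (L : Type) [Field L] [NumberField L] [Algebra K L] (φ : A →ₐ[K] L),
        (∀ j, φ (algebraMap K[X] A X) ≠ algebraMap K L (a j)) →
        wt (fun w => NearA a (φ (algebraMap K[X] A X)) w) ≤
          wt (fun w => (∀ p ∈ S, w.asIdeal.comap (algebraMap (𝓞 K) (𝓞 L)) ≠ p.asIdeal) ∧
            MeetD a u y φ w) +
          ((∑ j, (Module.finrank K (A ⧸ E j) : ℝ)) / Module.finrank K[X] A + ε) *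
            logHeight₁ (φ (algebraMap K[X] A X)) + Module.finrank ℚ L * C := by
  classical
  obtain ⟨M, C, G, hM, hC, hG, hkey⟩ := Pool.Agent.Y729.RV.keyK partNB
    Pool.Agent.W460.AC.t Pool.Agent.W989.AC.MULT.t Pool.Agent.W597.AC.t K A hq a u y E hE hyE ε hε
  obtain ⟨cG, hcG, hroot⟩ := height_root hG
  have hsub := fun j => height_sub K (a j)
  choose ca hca0 hca using hsub
  obtain ⟨n2, hn2⟩ : ∃ n : ℕ, n = ∏ p ∈ S, Ideal.absNorm p.asIdeal := ⟨_, rfl⟩
  have hn20 : n2 ≠ 0 := by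
    rw [hn2]
    refine Finset.prod_ne_zero_iff.2 fun p _ => ?_
    rw [Ne, Ideal.absNorm_eq_zero_iff]
    exact p.ne_bot
  have hlM : 0 ≤ Real.log M := Real.log_natCast_nonneg _
  have hln : 0 ≤ Real.log n2 := Real.log_natCast_nonneg _
  have hl2 : 0 ≤ Real.log 2 := Real.log_nonneg (by norm_num)
  obtain ⟨CG, hCG⟩ : ∃ c : ℝ, c = ∑ j : Fin q, (cG + ca j + Real.log 2) := ⟨_, rfl⟩
  have hCG0 : 0 ≤ CG := by
    rw [hCG]
    exact Finset.sum_nonneg fun j _ => by linarith [hca0 j]
  refine ⟨C + Real.log M + Real.log n2 + CG, by positivity, ?_⟩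
  intro L _ _ _ φ hne
  obtain ⟨t, ht⟩ : ∃ t : L, t = φ (algebraMap K[X] A X) := ⟨_, rfl⟩
  obtain ⟨d, hd⟩ : ∃ d : ℝ, d = (Module.finrank ℚ L : ℝ) := ⟨_, rfl⟩
  have hd0 : 0 ≤ d := by rw [hd]; exact Nat.cast_nonneg _
  have hdM := mul_nonneg hd0 hlM
  have hdn := mul_nonneg hd0 hln
  have hdG := mul_nonneg hd0 hCG0
  have hdC := mul_nonneg hd0 hC
  have hh := zero_le_logHeight₁ t
  have hR : 0 ≤ (∑ j, (Module.finrank K (A ⧸ E j) : ℝ)) / Module.finrank K[X] A + ε := by
    positivity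
  have hRh := mul_nonneg hR hh
  rw [← ht] at hne ⊢
  rw [← hd]
  have hw0 := wt_nonneg (fun w : HeightOneSpectrum (𝓞 L) =>
    (∀ p ∈ S, w.asIdeal.comap (algebraMap (𝓞 K) (𝓞 L)) ≠ p.asIdeal) ∧ MeetD a u y φ w)
  by_cases hGt : aeval t G = 0
  · have h1 := nearA_le hne
    have h2 : ∑ j, logHeight₁ (t - algebraMap K L (a j)) ≤ d * CG := by
      rw [hCG, Finset.mul_sum]
      refine Finset.sum_le_sum fun j _ => ?_
      have h3 := hroot L t hGt
      have h4 := hca j L
      have h5 := logHeight₁_sub_le t (algebraMap K L (a j))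
      rw [totalWeight_eq_finrank] at h5
      rw [← hd] at h3 h4 h5
      linarith
    linarith
  · have h1 := hkey ∅ L φ (by rw [← ht]; exact hGt) (by rw [← ht]; exact hne)
    rw [← ht, ← hd] at h1
    have e1 : Pool.Agent.Y729.RV.cnt (∅ ∪ M.primeFactors) a t =
        wt (fun w => Pool.Agent.Y729.RV.Nr (∅ ∪ M.primeFactors) a t w) := rfl
    have e2 : Real.log (mulHeight₁ t) = logHeight₁ t := rfl
    have hfN := Pool.Agent.Y729.RV.nr_fin (∅ ∪ M.primeFactors) hne
    have hfM : {w : HeightOneSpectrum (𝓞 L) | w.valuation L (M : L) < 1}.Finite :=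
      fin_zero (Nat.cast_ne_zero.2 hM)
    have hfn : {w : HeightOneSpectrum (𝓞 L) | w.valuation L (n2 : L) < 1}.Finite :=
      fin_zero (Nat.cast_ne_zero.2 hn20)
    have h2 : wt (fun w => NearA a t w) ≤
        wt (fun w => Pool.Agent.Y729.RV.Nr (∅ ∪ M.primeFactors) a t w) + d * Real.log M := by
      refine (wt_mono (hfN.union hfM) ?_).trans ((wt_or_le hfN hfM).trans
        (add_le_add le_rfl (by rw [hd]; exact wt_nat hM)))
      intro w hw
      by_cases h3 : ∀ p ∈ ∅ ∪ M.primeFactors, (p : 𝓞 L) ∉ w.asIdeal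
      · exact Or.inl ⟨h3, hw⟩
      · right
        push Not at h3
        obtain ⟨p, hp, hpw⟩ := h3
        rw [Finset.empty_union] at hp
        refine val_nat_lt ?_
        obtain ⟨c, hc⟩ := Nat.dvd_of_mem_primeFactors hp
        rw [hc]
        push_cast
        exact Ideal.mul_mem_right _ _ hpw
    have hfD : {w : HeightOneSpectrum (𝓞 L) |
        (∀ p ∈ S, w.asIdeal.comap (algebraMap (𝓞 K) (𝓞 L)) ≠ p.asIdeal) ∧
          MeetD a u y φ w}.Finite := by
      refine (nearA_fin hne).subset ?_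
      rintro w ⟨-, h3, j, h4, -⟩
      rw [← ht] at h3 h4
      exact ⟨h3, j, h4⟩
    have h3 : Pool.Agent.W223.CV.cc ∅ (fun v : HeightOneSpectrum (𝓞 L) =>
        v.valuation L t ≤ 1 ∧ ∃ j, v.valuation L (t - algebraMap K L (a j)) < 1 ∧
          ∀ i, v.valuation L (φ (y j i)) < 1) ≤
        wt (fun w => (∀ p ∈ S, w.asIdeal.comap (algebraMap (𝓞 K) (𝓞 L)) ≠ p.asIdeal) ∧
          MeetD a u y φ w) + d * Real.log n2 := by
      have e3 : Pool.Agent.W223.CV.cc ∅ (fun v : HeightOneSpectrum (𝓞 L) =>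
          v.valuation L t ≤ 1 ∧ ∃ j, v.valuation L (t - algebraMap K L (a j)) < 1 ∧
            ∀ i, v.valuation L (φ (y j i)) < 1) =
          wt (fun w => (∀ p ∈ (∅ : Finset ℕ), (p : 𝓞 L) ∉ w.asIdeal) ∧
            (w.valuation L t ≤ 1 ∧ ∃ j, w.valuation L (t - algebraMap K L (a j)) < 1 ∧
            ∀ i, w.valuation L (φ (y j i)) < 1)) := by
        unfold Pool.Agent.W223.CV.cc wt
        refine finsum_congr fun w => ?_
        by_cases h4 : (∀ p ∈ (∅ : Finset ℕ), (p : 𝓞 L) ∉ w.asIdeal) ∧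
            (w.valuation L t ≤ 1 ∧ ∃ j, w.valuation L (t - algebraMap K L (a j)) < 1 ∧
            ∀ i, w.valuation L (φ (y j i)) < 1)
        · rw [ind_pos h4]
          exact Pool.Agent.W223.CV.ct_pos h4
        · rw [ind_neg h4]
          exact Pool.Agent.W223.CV.ct_neg h4
      rw [e3]
      refine (wt_mono (hfD.union hfn) ?_).trans ((wt_or_le hfD hfn).trans
        (add_le_add le_rfl (by rw [hd]; exact wt_nat hn20)))
      rintro w ⟨-, hw⟩
      by_cases h4 : ∀ p ∈ S, w.asIdeal.comap (algebraMap (𝓞 K) (𝓞 L)) ≠ p.asIdeal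
      · left
        refine ⟨h4, ?_⟩
        unfold MeetD
        rw [← ht]
        exact hw
      · right
        push Not at h4
        obtain ⟨p, hp, hpw⟩ := h4
        refine val_nat_lt ?_
        have h5 : ((Ideal.absNorm p.asIdeal : ℕ) : 𝓞 L) ∈ w.asIdeal := by
          have h8 := Ideal.absNorm_mem p.asIdeal
          rw [← hpw, Ideal.mem_comap, map_natCast] at h8
          rw [hpw] at h8
          exact h8
        rw [hn2]
        obtain ⟨c, hc⟩ := Finset.dvd_prod_of_mem (fun p : HeightOneSpectrum (𝓞 K) =>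
          Ideal.absNorm p.asIdeal) hp
        rw [hc]
        push_cast
        exact Ideal.mul_mem_right _ _ h5
    rw [e1, e2] at h1
    linarith

end Pool.Agent.Q290.NF
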