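import Pool.Agent.Q290.NF.Up

/-!
# Hyperelliptic curves `y ^ 2 = 1 - 4 x ^ l`
-/

set_option autoImplicit false

namespace Pool.Agent.Q290.NF

open NumberField IsDedekindDomain Height Polynomial IntermediateField

/-- double poles -/
theorem pole_le2 {K : Type} [Field K] [NumberField K] (x : K)
    {P : HeightOneSpectrum (𝓞 K) → Prop}
    (hP : ∀ v, P v → WithZero.exp (2 : ℤ) ≤ v.valuation K x) :
    2 * wt P ≤ logHeight₁ x := by
  classical
  rw [NumberField.logHeight₁_eq]
  have h1 : 0 ≤ ∑ w : InfinitePlace K, (w.mult : ℝ) * Real.posLog (w x) :=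
    Finset.sum_nonneg fun w _ => mul_nonneg (Nat.cast_nonneg _) Real.posLog_nonneg
  have h2 : ∑ᶠ w : FinitePlace K, Real.posLog (w x) =
      ∑ᶠ v : HeightOneSpectrum (𝓞 K), Real.posLog (FinitePlace.mk v x) :=
    (finsum_comp_equiv FinitePlace.equivHeightOneSpectrum.symm).symm
  have hP1 : ∀ v, P v → 1 < v.valuation K x := by
    intro v hv
    refine lt_of_lt_of_le ?_ (hP v hv)
    rw [← WithZero.exp_zero, WithZero.exp_lt_exp]
    norm_num
  have hPf : {v | P v}.Finite := (fin_pole x).subset fun v hv => hP1 v hv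
  have h3 : 2 * wt P ≤ ∑ᶠ v : HeightOneSpectrum (𝓞 K), Real.posLog (FinitePlace.mk v x) := by
    unfold wt
    rw [mul_finsum' _ _ (hPf.subset (supp_sub _))]
    refine finsum_le_finsum' ?_ ?_ fun v => ?_
    · refine hPf.subset fun v hv => ?_
      rw [Function.mem_support] at hv
      by_contra h
      exact hv (by rw [ind_neg (P := P) h, mul_zero])
    · refine (fin_pole x).subset fun v hv => ?_
      rw [Function.mem_support] at hv
      by_contra h
      rw [Set.mem_ofPred_eq, not_lt] at h
      apply hv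
      rw [Real.posLog_eq_zero_iff, abs_of_nonneg (apply_nonneg _ _)]
      exact mk_le_one.2 h
    · by_cases h : P v
      · rw [ind_pos (P := P) h]
        have h5 : (1 : ℝ) < (Ideal.absNorm v.asIdeal : ℝ) := by
          exact_mod_cast HeightOneSpectrum.one_lt_absNorm v
        have h4 : (Ideal.absNorm v.asIdeal : ℝ) ^ 2 ≤ FinitePlace.mk v x := by
          rw [fin_mk]
          have h6 := (WithZeroMulInt.toNNReal_strictMono
            (HeightOneSpectrum.one_lt_absNorm_nnreal v)).monotone (hP v h)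
          have h7 : WithZeroMulInt.toNNReal (HeightOneSpectrum.absNorm_ne_zero v)
              (WithZero.exp (2 : ℤ)) = ((Ideal.absNorm v.asIdeal : ℕ) : NNReal) ^ 2 := by
            rw [WithZeroMulInt.toNNReal_neg_apply _ WithZero.exp_ne_zero]
            exact zpow_ofNat _ 2
          rw [h7] at h6
          exact_mod_cast h6
        have h8 : (1 : ℝ) ≤ FinitePlace.mk v x := by nlinarith
        rw [Real.posLog_eq_log (by rw [abs_of_nonneg (apply_nonneg _ _)]; exact h8)]
        have h9 := Real.log_le_log (by positivity) h4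
        rw [Real.log_pow] at h9
        exact_mod_cast h9
      · rw [ind_neg (P := P) h, mul_zero]
        exact Real.posLog_nonneg
  rw [h2]
  linarith

/-- the discriminant of the field of one root -/
theorem exists_field1 (k : Type) [Field k] [NumberField k] {l : ℕ} (hl0 : l ≠ 0) (a : k) :
    ∃ (E : Type) (_ : Field E) (_ : NumberField E) (_ : Algebra k E) (x : E),
      x ^ l = algebraMap k E a ∧ Module.finrank k E ≤ l ∧
      ∀ Q : HeightOneSpectrum (𝓞 k) → Prop, {v | Q v}.Finite →
        (∀ v : HeightOneSpectrum (𝓞 k), ¬ Q v →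
          v.valuation k (l : k) = 1 ∧ v.valuation k a = 1) →
        Real.log |(discr E : ℝ)| ≤ Module.finrank k E * (Real.log |(discr k : ℝ)| + wt Q +
          Module.finrank ℚ k * Real.log ((Module.finrank k E).factorial : ℝ)) := by
  obtain ⟨x, hx⟩ := IsAlgClosed.exists_pow_nat_eq (algebraMap k (AlgebraicClosure k) a)
    (Nat.pos_of_ne_zero hl0)
  obtain ⟨ix, fx⟩ := finrank_simple hl0 x a hx
  let F := k⟮x⟯
  have hF : Module.Finite k F := adjoin.finiteDimensional ix
  have nF : NumberField F := NumberField.of_module_finite k F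
  have hx' : (AdjoinSimple.gen k x : F) ^ l = algebraMap k F a := by
    apply (algebraMap F (AlgebraicClosure k)).injective
    rw [map_pow, AdjoinSimple.algebraMap_gen, hx, ← IsScalarTower.algebraMap_apply]
  refine ⟨F, inferInstance, nF, inferInstance, AdjoinSimple.gen k x, hx', fx, ?_⟩
  intro Q hQ h
  have htop : (F⟮(1 : F)⟯ : IntermediateField F F) = ⊤ := by
    refine eq_top_iff.2 fun z _ => ?_
    exact _root_.algebraMap_mem _ z
  exact kummer_disc (k := k) (F := F) (E := F) hl0 (AdjoinSimple.gen k x) (1 : F) a 1 hx'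
    (by rw [one_pow, map_one]) (gen_top ix) htop hQ
    (fun v hv => ⟨(h v hv).1, (h v hv).2, map_one _⟩)

/-- **Going up.** -/
theorem up1 (L : Type) [Field L] [NumberField L] {l : ℕ} (hl : l ≠ 0) {s : L}
    (hs : Gen s⁻¹) :
    ∃ (E : Type) (_ : Field E) (_ : NumberField E) (_ : Algebra L E) (x : E),
      (algebraMap L E s) ^ 2 = 1 - 4 * x ^ l ∧
      Module.finrank ℚ E ≤ Module.finrank ℚ L * l ∧
      logHeight₁ s⁻¹ / Module.finrank ℚ L ≤
        l / 2 * (logHeight₁ x / Module.finrank ℚ E) + 3 / 2 * Real.log 2 ∧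
      Real.log |(discr E : ℝ)| / Module.finrank ℚ E ≤ (wt (fun v => Near s⁻¹ v) /
        Module.finrank ℚ L + Real.log |(discr L : ℝ)| / Module.finrank ℚ L) +
          (Real.log ((2 * l : ℕ) : ℝ) + Real.log (l.factorial : ℝ)) := by
  obtain ⟨E, i1, i2, i3, x, hx, hd, hE⟩ := exists_field1 L hl (((1 - s) / 2) * ((1 + s) / 2))
  have ht : (Module.finrank ℚ L : ℝ) * Module.finrank L E = Module.finrank ℚ E := by
    exact_mod_cast Module.finrank_mul_finrank ℚ L E
  have h2l : 2 * l ≠ 0 := by omega
  have fin1 : {v : HeightOneSpectrum (𝓞 L) | v.valuation L ((2 * l : ℕ) : L) < 1}.Finite :=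
    fin_zero (Nat.cast_ne_zero.2 h2l)
  have fin2 : {v : HeightOneSpectrum (𝓞 L) | Near s⁻¹ v}.Finite := fin_near hs
  have h1 := hE (fun v => v.valuation L ((2 * l : ℕ) : L) < 1 ∨ Near s⁻¹ v) (fin1.union fin2)
    (fun v hv => by
      obtain ⟨a1, a2, a3⟩ := unit_places hs v hv
      exact ⟨a1, by rw [map_mul, a2, a3, one_mul]⟩)
  have h3 := (wt_or_le fin1 fin2).trans (add_le_add (wt_nat (K := L) h2l) le_rfl)
  have h4 : Real.log ((Module.finrank L E).factorial : ℝ) ≤ Real.log (l.factorial : ℝ) := by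
    refine Real.log_le_log (by exact_mod_cast Nat.factorial_pos _) ?_
    exact_mod_cast Nat.factorial_le hd
  have h5 : (Module.finrank ℚ L : ℝ) * Real.log ((Module.finrank L E).factorial : ℝ) ≤
      Module.finrank ℚ L * Real.log (l.factorial : ℝ) :=
    mul_le_mul_of_nonneg_left h4 (Nat.cast_nonneg _)
  have h6 : Real.log |(discr E : ℝ)| ≤ Module.finrank L E * (Real.log |(discr L : ℝ)| +
      wt (fun v => Near s⁻¹ v) + Module.finrank ℚ L *
        (Real.log ((2 * l : ℕ) : ℝ) + Real.log (l.factorial : ℝ))) := by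
    refine h1.trans (mul_le_mul_of_nonneg_left ?_ (Nat.cast_nonneg _))
    rw [mul_add]
    linarith
  obtain ⟨d, hdd⟩ : ∃ d : ℝ, d = (Module.finrank ℚ L : ℝ) := ⟨_, rfl⟩
  obtain ⟨e, he⟩ : ∃ e : ℝ, e = (Module.finrank L E : ℝ) := ⟨_, rfl⟩
  have hd0 : 0 < d := by rw [hdd]; exact_mod_cast Module.finrank_pos
  have he0 : 0 < e := by rw [he]; exact_mod_cast Module.finrank_pos
  refine ⟨E, i1, i2, i3, x, ?_, ?_, ?_, ?_⟩
  · rw [hx, ← map_pow, ← map_ofNat (algebraMap L E) 4, ← map_mul, ← map_one (algebraMap L E),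
      ← map_sub]
    congr 1
    ring
  · rw [← Module.finrank_mul_finrank ℚ L E]
    exact Nat.mul_le_mul_left _ hd
  · have k1 : (l : ℝ) * logHeight₁ x = Module.finrank L E *
        logHeight₁ (((1 - s) / 2) * ((1 + s) / 2)) := by
      rw [← logHeight₁_pow, hx, ht_ext]
    have k2 : 2 * logHeight₁ s ≤ logHeight₁ (((1 - s) / 2) * ((1 + s) / 2)) +
        3 * (Module.finrank ℚ L * Real.log 2) := by
      have e1 : s ^ 2 = 1 - 2 ^ 2 * (((1 - s) / 2) * ((1 + s) / 2)) := by
        field_simp
        ring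
      have k3 := logHeight₁_sub_le (1 : L) (2 ^ 2 * (((1 - s) / 2) * ((1 + s) / 2)))
      rw [← e1, logHeight₁_one, NumberField.totalWeight_eq_finrank, logHeight₁_pow] at k3
      have k4 := logHeight₁_mul_le ((2 : L) ^ 2) (((1 - s) / 2) * ((1 + s) / 2))
      rw [logHeight₁_pow] at k4
      have k5 := height_two' L
      push_cast at k3 k4
      linarith
    rw [logHeight₁_inv, ← ht, ← hdd, ← he]
    rw [← hdd] at k2
    rw [← he] at k1
    have e1 : (l : ℝ) / 2 * (logHeight₁ x / (d * e)) =
        logHeight₁ (((1 - s) / 2) * ((1 + s) / 2)) / (2 * d) := by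
      rw [div_mul_div_comm, k1]
      field_simp
    rw [e1, div_add' _ _ _ (by positivity), div_le_div_iff₀ hd0 (by positivity)]
    nlinarith
  · rw [← ht, ← hdd, ← he]
    rw [← hdd, ← he] at h6
    rw [div_le_iff₀ (mul_pos hd0 he0)]
    refine h6.trans (le_of_eq ?_)
    field_simp
    ring

/-- **Going down.** -/
theorem down_hyp {M : Type} [Field M] [NumberField M] {l : ℕ} (hl : Odd l) {x s : M}
    (hx : x ≠ 0) (hs : s ≠ 0) (h : s ^ 2 = 1 - 4 * x ^ l) :
    Gen s⁻¹ ∧
    wt (fun v => Near s⁻¹ v) ≤ 3 / 2 * logHeight₁ x + Module.finrank ℚ M * Real.log 2 ∧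
    l * logHeight₁ x ≤ 2 * logHeight₁ s⁻¹ + 3 * (Module.finrank ℚ M * Real.log 2) := by
  have hxl : x ^ l ≠ 0 := pow_ne_zero _ hx
  have h2 : (2 : M) ≠ 0 := two_ne_zero
  have h4 : (4 : M) ≠ 0 := by
    have e : (4 : M) = 2 * 2 := by norm_num
    rw [e]
    exact mul_ne_zero h2 h2
  have hfac : (1 - s) * (1 + s) = 4 * x ^ l := by linear_combination -h
  have hgen : Gen s⁻¹ := by
    refine ⟨inv_ne_zero hs, ?_, ?_⟩
    · intro h1
      rw [inv_eq_one] at h1
      rw [h1, sub_self, zero_mul] at hfac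
      exact mul_ne_zero h4 hxl hfac.symm
    · intro h1
      rw [inv_eq_iff_eq_inv, inv_neg, inv_one] at h1
      rw [h1] at hfac
      exact mul_ne_zero h4 hxl (by rw [← hfac]; ring)
  have hv2 : ∀ v : HeightOneSpectrum (𝓞 M), v.valuation M (2 : M) ≤ 1 := by
    intro v
    have h : v.valuation M (algebraMap (𝓞 M) M ((2 : ℕ) : 𝓞 M)) ≤ 1 :=
      v.valuation_le_one (K := M) _
    rwa [map_natCast] at h
  have hv4 : ∀ v : HeightOneSpectrum (𝓞 M), v.valuation M (2 : M) = 1 →
      v.valuation M (4 : M) = 1 := by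
    intro v hv
    have e : (4 : M) = 2 * 2 := by norm_num
    rw [e, map_mul, hv, one_mul]
  obtain ⟨P2, hP2⟩ : ∃ P : HeightOneSpectrum (𝓞 M) → Prop, P = fun v =>
    v.valuation M ((2 : ℕ) : M) < 1 := ⟨_, rfl⟩
  obtain ⟨Px, hPx⟩ : ∃ P : HeightOneSpectrum (𝓞 M) → Prop, P = fun v =>
    v.valuation M x < 1 := ⟨_, rfl⟩
  obtain ⟨Pp, hPp⟩ : ∃ P : HeightOneSpectrum (𝓞 M) → Prop, P = fun v =>
    WithZero.exp (2 : ℤ) ≤ v.valuation M x := ⟨_, rfl⟩
  refine ⟨hgen, ?_, ?_⟩
  · have hsub : ∀ v : HeightOneSpectrum (𝓞 M), Near s⁻¹ v → P2 v ∨ (Px v ∨ Pp v) := by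
      intro v hv
      by_cases h3 : v.valuation M (2 : M) < 1
      · left
        rw [hP2]
        push_cast
        exact h3
      have e2 : v.valuation M (2 : M) = 1 := le_antisymm (hv2 v) (not_lt.1 h3)
      have e4 := hv4 v e2
      right
      have hzero : v.valuation M (4 * x ^ l) < 1 → Px v := by
        intro hz
        rw [map_mul, e4, one_mul, map_pow] at hz
        rw [hPx]
        by_contra hcon
        exact absurd hz (not_lt.2 (one_le_pow₀ (not_lt.1 hcon)))
      rcases hv with hv | hv | hv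
      · right
        have hs1 : 1 < v.valuation M s := by
          rw [map_inv₀] at hv
          by_contra hcon
          exact absurd hv (not_lt.2 ((one_le_inv₀ (zero_lt_iff.2
            ((Valuation.ne_zero_iff _).2 hs))).2 (not_lt.1 hcon)))
        have e5 : v.valuation M x ^ l = v.valuation M s ^ 2 := by
          have e6 : 4 * x ^ l = 1 - s ^ 2 := by linear_combination h
          have e7 : v.valuation M (4 * x ^ l) = v.valuation M x ^ l := by
            rw [map_mul, e4, one_mul, map_pow]
          rw [← e7, e6, Valuation.map_sub_eq_of_lt_right, map_pow]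
          rw [map_one, map_pow]
          exact one_lt_pow₀ hs1 (by norm_num)
        have hx0 : v.valuation M x ≠ 0 := (Valuation.ne_zero_iff _).2 hx
        have hs0 : v.valuation M s ≠ 0 := (Valuation.ne_zero_iff _).2 hs
        obtain ⟨n, hn⟩ : ∃ n : ℤ, v.valuation M x = WithZero.exp n :=
          ⟨WithZero.log (v.valuation M x), (WithZero.exp_log hx0).symm⟩
        obtain ⟨m, hm⟩ : ∃ m : ℤ, v.valuation M s = WithZero.exp m :=
          ⟨WithZero.log (v.valuation M s), (WithZero.exp_log hs0).symm⟩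
        rw [hn, hm, ← WithZero.exp_nsmul, ← WithZero.exp_nsmul, WithZero.exp_inj,
          nsmul_eq_mul, nsmul_eq_mul] at e5
        rw [hm, ← WithZero.exp_zero, WithZero.exp_lt_exp] at hs1
        obtain ⟨j, hj⟩ := hl
        rw [hPp]
        show WithZero.exp (2 : ℤ) ≤ v.valuation M x
        rw [hn, WithZero.exp_le_exp]
        have hn2 : (2 : ℤ) ∣ n := by
          have : (2 : ℤ) ∣ (l : ℤ) * n := ⟨m, by rw [e5]; push_cast; ring⟩
          refine (IsCoprime.dvd_of_dvd_mul_left ?_ this)
          rw [hj]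
          exact ⟨-j, 1, by push_cast; ring⟩
        have hn0 : 0 < n := by
          by_contra hcon
          have : (l : ℤ) * n ≤ 0 := mul_nonpos_of_nonneg_of_nonpos (Int.natCast_nonneg _)
            (not_lt.1 hcon)
          rw [e5] at this
          push_cast at this
          linarith
        obtain ⟨i, hi⟩ := hn2
        omega
      · left
        apply hzero
        have h6 : v.valuation M s⁻¹ = 1 := by
          have e : s⁻¹ = (s⁻¹ - 1) + 1 := by ring
          rw [e, Valuation.map_add_eq_of_lt_right, map_one]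
          rw [map_one]
          exact hv
        have h7 : v.valuation M s = 1 := by
          rwa [map_inv₀, inv_eq_one] at h6
        have e : 4 * x ^ l = s * (s⁻¹ - 1) * (1 + s) := by
          rw [← hfac, mul_sub, mul_inv_cancel₀ hs, mul_one]
        rw [e, map_mul, map_mul, h7, one_mul]
        refine mul_lt_one_of_lt_of_le hv ?_
        exact Valuation.map_add_le _ (by rw [map_one]) h7.le
      · left
        apply hzero
        have h6 : v.valuation M s⁻¹ = 1 := by
          have e : s⁻¹ = (s⁻¹ + 1) + -1 := by ring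
          rw [e, Valuation.map_add_eq_of_lt_right, Valuation.map_neg, map_one]
          rw [Valuation.map_neg, map_one]
          exact hv
        have h7 : v.valuation M s = 1 := by
          rwa [map_inv₀, inv_eq_one] at h6
        have e : 4 * x ^ l = s * (s⁻¹ + 1) * (1 - s) := by
          rw [← hfac, mul_add s, mul_inv_cancel₀ hs, mul_one, mul_comm]
        rw [e, map_mul, map_mul, h7, one_mul]
        refine mul_lt_one_of_lt_of_le hv ?_
        exact Valuation.map_sub_le _ (by rw [map_one]) h7.le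
    have f2 : {v | P2 v}.Finite := by
      rw [hP2]
      exact fin_zero (by exact_mod_cast h2)
    have fx : {v | Px v}.Finite := by
      rw [hPx]
      exact fin_zero hx
    have fp : {v | Pp v}.Finite := by
      refine (fin_pole x).subset fun v hv => ?_
      rw [hPp] at hv
      have hv' : WithZero.exp (2 : ℤ) ≤ v.valuation M x := hv
      refine lt_of_lt_of_le ?_ hv'
      rw [← WithZero.exp_zero, WithZero.exp_lt_exp]
      norm_num
    have k1 : wt (fun v => Px v ∨ Pp v) ≤ wt Px + wt Pp := wt_or_le fx fp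
    have k2 : wt (fun v => P2 v ∨ (Px v ∨ Pp v)) ≤ wt P2 + wt (fun v => Px v ∨ Pp v) :=
      wt_or_le f2 (fx.union fp)
    have k3 : wt (fun v => Near s⁻¹ v) ≤ wt (fun v => P2 v ∨ (Px v ∨ Pp v)) :=
      wt_mono (f2.union (fx.union fp)) hsub
    have k4 : wt P2 ≤ Module.finrank ℚ M * Real.log 2 := by
      have := wt_nat (K := M) (n := 2) (by norm_num)
      rw [hP2]
      exact_mod_cast this
    have k5 : wt Px ≤ logHeight₁ x := by
      have h1 := pole_le (K := M) x⁻¹
      rw [logHeight₁_inv] at h1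
      refine le_trans ?_ h1
      rw [hPx]
      refine wt_mono (fin_pole _) fun v hv => ?_
      rw [map_inv₀]
      exact (one_lt_inv₀ (zero_lt_iff.2 ((Valuation.ne_zero_iff _).2 hx))).2 hv
    have k6 : 2 * wt Pp ≤ logHeight₁ x := pole_le2 x fun v hv => by rw [hPp] at hv; exact hv
    linarith
  · rw [← logHeight₁_pow, logHeight₁_inv]
    have e : x ^ l = (1 - s ^ 2) * (2 ^ 2 : M)⁻¹ := by
      rw [h]
      field_simp
      ring
    rw [e]
    have k1 := logHeight₁_sub_le (1 : M) (s ^ 2)
    rw [logHeight₁_one, NumberField.totalWeight_eq_finrank, logHeight₁_pow] at k1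
    have k2 := logHeight₁_mul_le (1 - s ^ 2) (2 ^ 2 : M)⁻¹
    rw [logHeight₁_inv, logHeight₁_pow] at k2
    have k3 := height_two' M
    push_cast at k1 k2
    linarith

end Pool.Agent.Q290.NF
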