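import Pool.Agent.Y729.RV.Crv
import Pool.Agent.W976.AC.EX
import Pool.Agent.W460.AC.NORM
import Pool.Agent.W597.AC.LOC
import Pool.Agent.W193.AC.FINQ
import Pool.Agent.W398.AC.DIM
import Pool.Agent.W803.AC.SUMN
import Pool.Agent.W131.AC.GROW
import Pool.Agent.W395.AC.LOCM
import Pool.Agent.W989.AC.MULT
import Pool.Agent.W410.AC.HTG

/-!
# The key inequality on a curve, without hypotheses
-/

set_option autoImplicit false

namespace Pool.Agent.Q290.NF

open Pool.Agent.W223.AC in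
theorem partNB : StmtNB :=
  nb (Pool.Agent.W976.AC.EX.t Pool.Agent.W398.AC.DIM.t Pool.Agent.W193.AC.FINQ.t
      Pool.Agent.W989.AC.MULT.t)
    (Pool.Agent.W395.AC.LOCM.t Pool.Agent.W989.AC.MULT.t Pool.Agent.W597.AC.t)
    (Pool.Agent.W410.AC.t Pool.Agent.W131.AC.t) Pool.Agent.W803.AC.t Pool.Agent.W460.AC.t

end Pool.Agent.Q290.NF
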