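import Pool.Agent.Y733.VR.Disc
import Pool.Agent.Y729.DB.Norm
import Pool.Agent.Q290.NF.Root

/-!
# Discriminants of fields generated by roots of prime order

If `F = k(x, y)` with `x ^ ℓ = a`, `y ^ ℓ = b` in `k`, then `F` is unramified over `k` outside the
primes which divide `ℓ` or at which `a` or `b` is not a unit.
-/

set_option autoImplicit false

namespace Pool.Agent.Q290.NF

open NumberField IsDedekindDomain Height Polynomial IntermediateField

section

variable {k F : Type} [Field k] [NumberField k] [Field F] [NumberField F] [Algebra k F]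

theorem kummer_unram {l : ℕ} (hl0 : l ≠ 0) (x : F) (a : k) (hx : x ^ l = algebraMap k F a)
    (hadj : k⟮x⟯ = ⊤) (v : HeightOneSpectrum (𝓞 k)) (P : HeightOneSpectrum (𝓞 F))
    (hP : P.asIdeal.comap (algebraMap (𝓞 k) (𝓞 F)) = v.asIdeal)
    (hl : v.valuation k (l : k) = 1) (ha : v.valuation k a = 1) :
    ¬ P.asIdeal ∣ differentIdeal (𝓞 k) (𝓞 F) := by
  intro hdvd
  obtain ⟨n, ⟨d, hd⟩, hnd⟩ := v.exists_primeCompl_mul_eq_of_integer a ha.le
  simp only at hnd
  have hd' : d ∉ v.asIdeal := hd
  have hd1 : v.valuation k (algebraMap (𝓞 k) k d) = 1 := by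
    rw [v.valuation_of_algebraMap]
    exact (v.intValuation_eq_one_iff_mem_primeCompl d).2 hd
  have hd0 : d ≠ 0 := by
    rintro rfl
    exact hd' (zero_mem _)
  -- `d x` is integral
  set c : 𝓞 k := n * d ^ (l - 1) with hc
  have hck : algebraMap (𝓞 k) k c = a * (algebraMap (𝓞 k) k d) ^ l := by
    rw [hc, map_mul, map_pow, ← hnd, mul_assoc, ← pow_succ', Nat.sub_add_cancel
      (Nat.one_le_iff_ne_zero.2 hl0)]
  have hz : (algebraMap k F (algebraMap (𝓞 k) k d) * x) ^ l =
      algebraMap k F (algebraMap (𝓞 k) k c) := by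
    rw [mul_pow, hx, hck, map_mul, map_pow, mul_comm]
  have hint : IsIntegral ℤ (algebraMap k F (algebraMap (𝓞 k) k d) * x) := by
    refine IsIntegral.of_pow (Nat.pos_of_ne_zero hl0) ?_
    rw [hz]
    exact (RingOfIntegers.isIntegral_coe c).map (IsScalarTower.toAlgHom ℤ k F)
  set β : 𝓞 F := ⟨algebraMap k F (algebraMap (𝓞 k) k d) * x, hint⟩ with hβ
  have hβl : β ^ l = algebraMap (𝓞 k) (𝓞 F) c := by
    apply RingOfIntegers.ext
    rw [RingOfIntegers.coe_eq_algebraMap, RingOfIntegers.coe_eq_algebraMap, map_pow]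
    exact hz
  have hadj' : k⟮(β : F)⟯ = ⊤ := by
    rw [← hadj]
    apply le_antisymm
    · rw [adjoin_simple_le_iff]
      exact mul_mem (_root_.algebraMap_mem _ _) (mem_adjoin_simple_self k x)
    · rw [adjoin_simple_le_iff]
      have h1 : x = (algebraMap k F (algebraMap (𝓞 k) k d))⁻¹ * (β : F) := by
        show x = (algebraMap k F (algebraMap (𝓞 k) k d))⁻¹ *
          (algebraMap k F (algebraMap (𝓞 k) k d) * x)
        rw [inv_mul_cancel_left₀]
        intro h
        apply hd0
        apply (FaithfulSMul.algebraMap_injective (𝓞 k) k)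
        apply (algebraMap k F).injective
        rw [h, map_zero, map_zero]
      rw [h1]
      exact mul_mem (inv_mem (_root_.algebraMap_mem _ _)) (mem_adjoin_simple_self k (β : F))
  have hmem := Pool.Agent.Y733.VR.deriv_mem k F β hadj' (X ^ l - C c) (by
    rw [map_sub, map_pow, aeval_X, aeval_C, hβl, sub_self])
  have hmem2 : (l : 𝓞 F) * β ^ (l - 1) ∈ P.asIdeal := by
    have h2 := Ideal.dvd_iff_le.1 hdvd hmem
    rw [derivative_sub, derivative_C, sub_zero, derivative_X_pow, map_mul, map_pow, aeval_X,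
      aeval_C, map_natCast] at h2
    exact h2
  have hvl : ∀ z : 𝓞 k, algebraMap (𝓞 k) (𝓞 F) z ∈ P.asIdeal → v.valuation k
      (algebraMap (𝓞 k) k z) < 1 := by
    intro z hz
    rw [v.valuation_lt_one_iff_mem, ← hP, Ideal.mem_comap]
    exact hz
  rcases P.isPrime.mem_or_mem hmem2 with h | h
  · have h1 := hvl (l : 𝓞 k) (by rw [map_natCast]; exact h)
    rw [map_natCast, hl] at h1
    exact lt_irrefl _ h1
  · have h3 : β ^ l ∈ P.asIdeal := by
      exact Ideal.pow_mem_of_mem _ (P.isPrime.mem_of_pow_mem _ h) _ (Nat.pos_of_ne_zero hl0)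
    rw [hβl] at h3
    have h1 := hvl c h3
    rw [hck, map_mul, map_pow, ha, hd1, one_pow, mul_one] at h1
    exact lt_irrefl _ h1

end

section

variable {k F E : Type} [Field k] [NumberField k] [Field F] [NumberField F] [Field E]
  [NumberField E] [Algebra k F] [Algebra F E] [Algebra k E] [IsScalarTower k F E]

attribute [local instance] FractionRing.liftAlgebra FractionRing.isScalarTower_liftAlgebra

/-- a prime which divides the different of a tower -/
theorem diff_tower (P : HeightOneSpectrum (𝓞 E)) (h : P.asIdeal ∣ differentIdeal (𝓞 k) (𝓞 E)) :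
    P.asIdeal ∣ differentIdeal (𝓞 F) (𝓞 E) ∨ ∀ w : HeightOneSpectrum (𝓞 F),
      P.asIdeal.comap (algebraMap (𝓞 F) (𝓞 E)) = w.asIdeal →
        w.asIdeal ∣ differentIdeal (𝓞 k) (𝓞 F) := by
  rw [differentIdeal_eq_differentIdeal_mul_differentIdeal (𝓞 k) (𝓞 F) (𝓞 E)] at h
  rcases P.prime.dvd_or_dvd h with h | h
  · exact Or.inl h
  · right
    intro w hw
    rw [Ideal.dvd_iff_le] at h ⊢
    rw [← hw, ← Ideal.map_le_iff_le_comap]
    exact h


theorem kummer_disc {l : ℕ} (hl0 : l ≠ 0) (x : F) (y : E) (a b : k)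
    (hx : x ^ l = algebraMap k F a) (hy : y ^ l = algebraMap k E b)
    (hF : k⟮x⟯ = ⊤) (hE : F⟮y⟯ = ⊤) {Q : HeightOneSpectrum (𝓞 k) → Prop} (hQ : {v | Q v}.Finite)
    (h : ∀ v : HeightOneSpectrum (𝓞 k), ¬ Q v →
      v.valuation k (l : k) = 1 ∧ v.valuation k a = 1 ∧ v.valuation k b = 1) :
    Real.log |(discr E : ℝ)| ≤ Module.finrank k E * (Real.log |(discr k : ℝ)| + wt Q +
      Module.finrank ℚ k * Real.log ((Module.finrank k E).factorial : ℝ)) := by
  classical
  have hV : ∀ P : HeightOneSpectrum (𝓞 E), P.asIdeal ∣ differentIdeal (𝓞 k) (𝓞 E) →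
      ∃ v ∈ hQ.toFinset, P.asIdeal.comap (algebraMap (𝓞 k) (𝓞 E)) = v.asIdeal := by
    intro P hP
    -- the primes below
    set w : HeightOneSpectrum (𝓞 F) := P.under (𝓞 F) with hw
    set v : HeightOneSpectrum (𝓞 k) := w.under (𝓞 k) with hv
    have ew : P.asIdeal.comap (algebraMap (𝓞 F) (𝓞 E)) = w.asIdeal := rfl
    have ev : w.asIdeal.comap (algebraMap (𝓞 k) (𝓞 F)) = v.asIdeal := rfl
    have eP : P.asIdeal.comap (algebraMap (𝓞 k) (𝓞 E)) = v.asIdeal := by
      rw [← ev, ← ew, Ideal.comap_comap, ← IsScalarTower.algebraMap_eq]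
    refine ⟨v, ?_, eP⟩
    rw [Set.Finite.mem_toFinset]
    by_contra hne
    obtain ⟨u1, u2, u3⟩ := h v hne
    have hlie : w.asIdeal.LiesOver v.asIdeal := ⟨rfl⟩
    have hval : ∀ z : k, v.valuation k z = 1 → w.valuation F (algebraMap k F z) = 1 := by
      intro z hz
      rw [← HeightOneSpectrum.valuation_liesOver F v w, hz, one_pow]
    have n1 := kummer_unram hl0 x a hx hF v w ev u1 u2
    have n2 := kummer_unram (k := F) (F := E) hl0 y (algebraMap k F b) (by
      rw [hy, ← IsScalarTower.algebraMap_apply]) hE w P ew (by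
        have := hval l u1
        rwa [map_natCast] at this) (hval b u3)
    rcases diff_tower (k := k) (F := F) P hP with h1 | h1
    · exact n2 h1
    · exact n1 (h1 w ew)
  have h1 := Pool.Agent.Y729.DB.disc_le (k := k) (F := E) hQ.toFinset hV
  have h2 : ∑ v ∈ hQ.toFinset, Real.log (Ideal.absNorm v.asIdeal : ℝ) = wt Q := by
    unfold wt
    rw [finsum_eq_sum_of_support_subset _ (s := hQ.toFinset)]
    · refine Finset.sum_congr rfl fun v hv => ?_
      rw [ind_pos (P := Q) ((Set.Finite.mem_toFinset _).1 hv)]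
      rfl
    · intro v hv
      rw [Set.Finite.coe_toFinset]
      exact supp_sub _ hv
  rw [h2] at h1
  have h3 := wt_nonneg Q
  refine h1.trans ?_
  have h4 : ((Module.finrank k E : ℝ) - 1) * wt Q ≤ Module.finrank k E * wt Q :=
    mul_le_mul_of_nonneg_right (by linarith) h3
  rw [mul_add, mul_add]
  linarith

end


section

theorem finrank_simple {k M : Type} [Field k] [Field M] [Algebra k M] {l : ℕ} (hl0 : l ≠ 0)
    (x : M) (a : k) (hx : x ^ l = algebraMap k M a) :
    IsIntegral k x ∧ Module.finrank k k⟮x⟯ ≤ l := by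
  have hroot : aeval x (X ^ l - C a) = 0 := by
    rw [map_sub, map_pow, aeval_X, aeval_C, hx, sub_self]
  have hmon : (X ^ l - C a : k[X]).Monic := monic_X_pow_sub_C a hl0
  have hint : IsIntegral k x := ⟨X ^ l - C a, hmon, by rwa [← aeval_def]⟩
  refine ⟨hint, ?_⟩
  rw [adjoin.finrank hint]
  refine (natDegree_le_of_dvd (minpoly.dvd k x hroot) hmon.ne_zero).trans ?_
  rw [natDegree_X_pow_sub_C]

theorem gen_top {k M : Type} [Field k] [Field M] [Algebra k M] {x : M} (hx : IsIntegral k x) :
    k⟮(AdjoinSimple.gen k x)⟯ = ⊤ := by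
  apply adjoin_eq_top_of_algebra
  have h := (adjoin.powerBasis hx).adjoin_gen_eq_top
  rwa [adjoin.powerBasis_gen] at h

/-- **The field of the two roots.** -/
theorem exists_field (k : Type) [Field k] [NumberField k] {l : ℕ} (hl0 : l ≠ 0) (a b : k) :
    ∃ (E : Type) (_ : Field E) (_ : NumberField E) (_ : Algebra k E) (x y : E),
      x ^ l = algebraMap k E a ∧ y ^ l = algebraMap k E b ∧ Module.finrank k E ≤ l * l ∧
      ∀ Q : HeightOneSpectrum (𝓞 k) → Prop, {v | Q v}.Finite →
        (∀ v : HeightOneSpectrum (𝓞 k), ¬ Q v →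
          v.valuation k (l : k) = 1 ∧ v.valuation k a = 1 ∧ v.valuation k b = 1) →
        Real.log |(discr E : ℝ)| ≤ Module.finrank k E * (Real.log |(discr k : ℝ)| + wt Q +
          Module.finrank ℚ k * Real.log ((Module.finrank k E).factorial : ℝ)) := by
  obtain ⟨x, hx⟩ := IsAlgClosed.exists_pow_nat_eq (algebraMap k (AlgebraicClosure k) a)
    (Nat.pos_of_ne_zero hl0)
  obtain ⟨y, hy⟩ := IsAlgClosed.exists_pow_nat_eq (algebraMap k (AlgebraicClosure k) b)
    (Nat.pos_of_ne_zero hl0)
  obtain ⟨ix, fx⟩ := finrank_simple hl0 x a hx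
  let F := k⟮x⟯
  have hF : Module.Finite k F := adjoin.finiteDimensional ix
  have nF : NumberField F := NumberField.of_module_finite k F
  have hyF : y ^ l = algebraMap F (AlgebraicClosure k) (algebraMap k F b) := by
    rw [hy, ← IsScalarTower.algebraMap_apply]
  obtain ⟨iy, fy⟩ := finrank_simple (k := F) hl0 y (algebraMap k F b) hyF
  let E := F⟮y⟯
  have hE : Module.Finite F E := adjoin.finiteDimensional iy
  have nE : NumberField E := NumberField.of_module_finite F E
  have hx' : (AdjoinSimple.gen k x : F) ^ l = algebraMap k F a := by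
    apply (algebraMap F (AlgebraicClosure k)).injective
    rw [map_pow, AdjoinSimple.algebraMap_gen, hx, ← IsScalarTower.algebraMap_apply]
  have hy' : (AdjoinSimple.gen F y : E) ^ l = algebraMap k E b := by
    apply (algebraMap E (AlgebraicClosure k)).injective
    rw [map_pow, AdjoinSimple.algebraMap_gen, hy]
    rfl
  refine ⟨E, inferInstance, nE, inferInstance, algebraMap F E (AdjoinSimple.gen k x),
    AdjoinSimple.gen F y, ?_, hy', ?_, ?_⟩
  · rw [← map_pow, hx', ← IsScalarTower.algebraMap_apply]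
  · rw [← Module.finrank_mul_finrank k F E]
    exact Nat.mul_le_mul fx fy
  · intro Q hQ h
    exact kummer_disc (k := k) (F := F) (E := E) hl0 _ _ a b hx' hy' (gen_top ix) (gen_top iy) hQ h

end

end Pool.Agent.Q290.NF
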