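import Mathlib

/-!
# Heights of the values of a polynomial
-/

set_option autoImplicit false

namespace Pool.Agent.Q290.NF

open NumberField Height Polynomial

variable {K : Type} [Field K] [NumberField K]

/-- homogenisation -/
noncomputable def hom (m : ℕ) (P : K[X]) : MvPolynomial (Fin 2) K :=
  ∑ i ∈ Finset.range (m + 1), MvPolynomial.C (P.coeff i) *
    (MvPolynomial.X 0 ^ i * MvPolynomial.X 1 ^ (m - i))

omit [NumberField K] in
theorem hom_homogeneous (m : ℕ) (P : K[X]) : (hom m P).IsHomogeneous m := by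
  refine MvPolynomial.IsHomogeneous.sum _ _ _ fun i hi => ?_
  have h1 : i ≤ m := Nat.lt_succ_iff.1 (Finset.mem_range.1 hi)
  have h2 : (MvPolynomial.X (R := K) (0 : Fin 2) ^ i *
      MvPolynomial.X (R := K) (1 : Fin 2) ^ (m - i)).IsHomogeneous (i + (m - i)) := by
    refine MvPolynomial.IsHomogeneous.mul ?_ ?_
    · have := (MvPolynomial.isHomogeneous_X K (0 : Fin 2)).pow i
      rwa [one_mul] at this
    · have := (MvPolynomial.isHomogeneous_X K (1 : Fin 2)).pow (m - i)
      rwa [one_mul] at this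
  have h3 := (MvPolynomial.isHomogeneous_C (Fin 2) (P.coeff i)).mul h2
  rwa [show 0 + (i + (m - i)) = m by omega] at h3

omit [NumberField K] in
theorem hom_eval {m : ℕ} {P : K[X]} (hm : P.natDegree ≤ m) (x : K) :
    (hom m P).eval ![x, 1] = P.eval x := by
  unfold hom
  rw [map_sum, eval_eq_sum_range' (Nat.lt_succ_of_le hm)]
  refine Finset.sum_congr rfl fun i _ => ?_
  simp

theorem poly_height_le {m : ℕ} {P : K[X]} (hm : P.natDegree ≤ m) :
    ∃ C : ℝ, ∀ x : K, logHeight₁ (P.eval x) ≤ C + m * logHeight₁ x := by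
  obtain ⟨C, hC⟩ := logHeight_eval_le' (K := K) (N := m)
    (p := fun j : Fin 2 => ![hom m P, MvPolynomial.X 1 ^ m] j) (by
      intro j
      fin_cases j
      · exact hom_homogeneous m P
      · have := (MvPolynomial.isHomogeneous_X K (1 : Fin 2)).pow m
        rw [one_mul] at this
        exact this)
  refine ⟨C, fun x => ?_⟩
  have h1 := hC ![x, 1]
  have h2 : (fun j : Fin 2 => MvPolynomial.eval ![x, 1] (![hom m P, MvPolynomial.X 1 ^ m] j)) =
      ![P.eval x, 1] := by
    funext j
    fin_cases j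
    · exact hom_eval hm x
    · simp
  rw [h2, ← logHeight₁_eq_logHeight, ← logHeight₁_eq_logHeight] at h1
  exact h1

theorem poly_height_ge {P : K[X]} (hP : 1 ≤ P.natDegree) :
    ∃ C : ℝ, ∀ x : K, P.natDegree * logHeight₁ x ≤ logHeight₁ (P.eval x) + C := by
  obtain ⟨n, hn⟩ : ∃ n, n = P.natDegree := ⟨_, rfl⟩
  have hP0 : P ≠ 0 := by
    rintro rfl
    rw [natDegree_zero] at hP
    omega
  obtain ⟨A, hA⟩ : ∃ A : K[X], A = X ^ (n + n) / P := ⟨_, rfl⟩
  obtain ⟨B, hB⟩ : ∃ B : K[X], B = X ^ (n + n) % P := ⟨_, rfl⟩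
  have hdiv : P * A + B = X ^ (n + n) := by
    rw [hA, hB]
    exact EuclideanDomain.div_add_mod _ _
  have hBd : B.natDegree < n := by
    rw [hB, hn]
    exact natDegree_mod_lt _ (by omega)
  have hAd : A.natDegree ≤ n := by
    rcases eq_or_ne A 0 with h0 | h0
    · rw [h0, natDegree_zero]
      exact Nat.zero_le _
    · have h1 : (P * A).natDegree = P.natDegree + A.natDegree := natDegree_mul hP0 h0
      have h2 : P * A = X ^ (n + n) - B := by rw [← hdiv]; ring
      have h3 : (X ^ (n + n) - B).natDegree ≤ n + n := by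
        refine (natDegree_sub_le _ _).trans (max_le ?_ (by omega))
        exact natDegree_X_pow_le _
      rw [← h2, h1] at h3
      omega
  obtain ⟨C, hC⟩ := logHeight_eval_ge' (K := K) (ι := Fin 2) (ι' := Fin 2) (M := n) (N := n)
    (q := fun a : Fin 2 × Fin 2 => (![![hom n A, hom n B], ![0, MvPolynomial.X 1 ^ n]] a.1) a.2) (by
      rintro ⟨i, j⟩
      fin_cases i <;> fin_cases j
      · exact hom_homogeneous n A
      · exact hom_homogeneous n B
      · exact MvPolynomial.isHomogeneous_zero _ _ _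
      · have := (MvPolynomial.isHomogeneous_X K (1 : Fin 2)).pow n
        rw [one_mul] at this
        exact this)
  refine ⟨-C, fun x => ?_⟩
  have h1 := hC (fun j : Fin 2 => ![hom n P, MvPolynomial.X 1 ^ n] j) (x := ![x, 1]) (by
    intro k
    fin_cases k
    · have e1 := hom_eval hAd x
      have e2 := hom_eval hBd.le x
      have e3 := hom_eval hn.ge x
      have e4 : P.eval x * A.eval x + B.eval x = x ^ (n + n) := by
        rw [← eval_mul, ← eval_add, hdiv, eval_pow, eval_X]
      simp [Fin.sum_univ_two, e1, e2, e3]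
      rw [← e4]
      ring
    · simp [Fin.sum_univ_two])
  have h2 : (fun j : Fin 2 => MvPolynomial.eval ![x, 1] (![hom n P, MvPolynomial.X 1 ^ n] j)) =
      ![P.eval x, 1] := by
    funext j
    fin_cases j
    · exact hom_eval hn.ge x
    · simp
  rw [h2, ← logHeight₁_eq_logHeight, ← logHeight₁_eq_logHeight] at h1
  rw [← hn]
  linarith

end Pool.Agent.Q290.NF
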