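import Pool.Agent.Q290.NF.Count
import Pool.Agent.Q290.NF.BelRad
import Pool.Agent.Q290.NF.PolyHt

/-!
# From thin sets and three points to all points and finitely many points
-/

set_option autoImplicit false

namespace Pool.Agent.Q290.NF

open NumberField IsDedekindDomain Height Polynomial

variable {K : Type} [Field K] [NumberField K]

/-- the primes at which some coefficient is not integral -/
def badP (P : K[X]) : Set (HeightOneSpectrum (𝓞 K)) :=
  {v | ∃ i, 1 < v.valuation K (P.coeff i)}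

theorem badP_fin (P : K[X]) : (badP P).Finite := by
  refine (Set.Finite.biUnion (Finset.finite_toSet (Finset.range (P.natDegree + 1)))
    (fun i _ => fin_pole (P.coeff i))).subset ?_
  rintro v ⟨i, hi⟩
  refine Set.mem_biUnion (x := i) ?_ hi
  rw [Finset.mem_coe, Finset.mem_range]
  by_contra hcon
  rw [coeff_eq_zero_of_natDegree_lt (by omega), map_zero] at hi
  exact absurd hi (by simp)

theorem eval_le_one {P : K[X]} {v : HeightOneSpectrum (𝓞 K)} (hv : v ∉ badP P) {x : K}
    (hx : v.valuation K x ≤ 1) : v.valuation K (P.eval x) ≤ 1 := by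
  rw [eval_eq_sum_range]
  refine Valuation.map_sum_le _ fun i _ => ?_
  rw [map_mul, map_pow]
  have h1 : v.valuation K (P.coeff i) ≤ 1 := by
    by_contra hcon
    exact hv ⟨i, not_le.1 hcon⟩
  exact mul_le_one' h1 (pow_le_one₀ zero_le hx)

theorem zero_wt' {x : K} (hx : x ≠ 0) :
    wt (fun v : HeightOneSpectrum (𝓞 K) => v.valuation K x < 1) ≤ logHeight₁ x := by
  have h1 := pole_le (K := K) x⁻¹
  rw [logHeight₁_inv] at h1
  refine le_trans ?_ h1
  refine wt_mono (fin_pole _) fun v hv => ?_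
  rw [map_inv₀]
  exact (one_lt_inv₀ (zero_lt_iff.2 ((Valuation.ne_zero_iff _).2 hx))).2 hv

/-- the sum over finitely many conditions -/
theorem wt_exists_le {ι : Type} (s : Finset ι) (P : ι → HeightOneSpectrum (𝓞 K) → Prop)
    (h : ∀ i ∈ s, {v | P i v}.Finite) :
    {v | ∃ i ∈ s, P i v}.Finite ∧ wt (fun v => ∃ i ∈ s, P i v) ≤ ∑ i ∈ s, wt (P i) := by
  classical
  induction s using Finset.induction_on with
  | empty =>
    refine ⟨Set.finite_empty.subset fun v hv => ?_, ?_⟩
    · obtain ⟨i, hi, -⟩ := hv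
      exact absurd hi (Finset.notMem_empty i)
    · rw [Finset.sum_empty]
      unfold wt
      refine le_of_eq (finsum_eq_zero_of_forall_eq_zero fun v => ind_neg ?_)
      rintro ⟨i, hi, -⟩
      exact Finset.notMem_empty i hi
  | insert a s ha ih =>
    obtain ⟨ih1, ih2⟩ := ih fun i hi => h i (Finset.mem_insert_of_mem hi)
    have h1 := h a (Finset.mem_insert_self a s)
    have hsub : ∀ v, (∃ i ∈ insert a s, P i v) → (P a v ∨ ∃ i ∈ s, P i v) := by
      rintro v ⟨i, hi, hv⟩
      rcases Finset.mem_insert.1 hi with rfl | hi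
      · exact Or.inl hv
      · exact Or.inr ⟨i, hi, hv⟩
    refine ⟨(h1.union ih1).subset hsub, ?_⟩
    rw [Finset.sum_insert ha]
    exact (wt_mono (h1.union ih1) hsub).trans ((wt_or_le h1 ih1).trans (add_le_add le_rfl ih2))

/-- **all points and finitely many points** -/
theorem line_q (A : Finset K) (k : ℕ)
    (hthin : ∀ ε : ℝ, 0 < ε → ∃ C : ℝ, ∀ u : K, Gen (tv k u)⁻¹ →
      (1 - ε) * logHeight₁ (tv k u)⁻¹ ≤ wt (fun v => Near (tv k u)⁻¹ v) + C) :
    ∀ ε : ℝ, 0 < ε → ∃ C : ℝ, ∀ x : K, x ∉ A →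
      ((A.card : ℝ) - 1 - ε) * logHeight₁ x ≤
        wt (fun v : HeightOneSpectrum (𝓞 K) => 1 < v.valuation K x) +
          ∑ α ∈ A, wt (fun v : HeightOneSpectrum (𝓞 K) => v.valuation K (x - α) < 1) + C := by
  classical
  intro ε hε
  obtain ⟨f, R, G, M, hf, hR, ⟨Q, hQ⟩, hG0, hRG, hdeg⟩ := belyi_field K A
  obtain ⟨n, hn⟩ : ∃ n : ℕ, n = f.natDegree := ⟨_, rfl⟩
  rw [← hn] at hf hdeg
  have hn0 : (0 : ℝ) < n := by exact_mod_cast hf
  obtain ⟨d, hd⟩ : ∃ d : ℝ, d = (Module.finrank ℚ K : ℝ) := ⟨_, rfl⟩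
  have hd1 : 1 ≤ d := by
    rw [hd]
    exact_mod_cast Nat.succ_le_of_lt (Module.finrank_pos (R := ℚ) (M := K))
  have h2k : (0 : ℝ) < 2 ^ k := by positivity
  -- the polynomials over `K`
  obtain ⟨F, hF⟩ : ∃ F : K[X], F = f.map (algebraMap ℚ K) := ⟨_, rfl⟩
  obtain ⟨D, hD⟩ : ∃ D : K[X], D = (derivative f).map (algebraMap ℚ K) := ⟨_, rfl⟩
  obtain ⟨Rk, hRk⟩ : ∃ Rk : K[X], Rk = R.map (algebraMap ℚ K) := ⟨_, rfl⟩
  obtain ⟨Qk, hQk⟩ : ∃ Qk : K[X], Qk = Q.map (algebraMap ℚ K) := ⟨_, rfl⟩
  have e1 : F * (F - 1) = D * Rk := by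
    rw [hF, hD, hRk, ← Polynomial.map_mul, ← hR, Polynomial.map_mul, Polynomial.map_sub,
      Polynomial.map_one]
  have e2 : Rk ^ M = D * Qk := by
    rw [hD, hRk, hQk, ← Polynomial.map_mul, ← hQ, Polynomial.map_pow]
  have e3 : Rk = (∏ α ∈ A, (X - C α)) * G := by rw [hRk]; exact hRG
  have hFd : F.natDegree = n := by rw [hF, natDegree_map, hn]
  obtain ⟨P, hP⟩ : ∃ P : K[X], P = C 2 * F - 1 := ⟨_, rfl⟩
  have hPd : P.natDegree = n := by
    rw [hP]
    have : (1 : K[X]) = C 1 := C_1.symm
    rw [this, natDegree_sub_C, natDegree_C_mul two_ne_zero, hFd]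
  have hPe : ∀ x : K, P.eval x = 2 * F.eval x - 1 := by
    intro x
    rw [hP, eval_sub, eval_mul, eval_C, eval_one]
  -- the constants
  obtain ⟨C0, hC0⟩ := hthin (ε / n / 2 ^ k) (by positivity)
  obtain ⟨C2, hC2⟩ := poly_height_ge (P := P) (by rw [hPd]; exact hf)
  obtain ⟨C3, hC3⟩ := poly_height_le (P := G) le_rfl
  -- the bad primes
  obtain ⟨Bd, hBd⟩ : ∃ Bd : Set (HeightOneSpectrum (𝓞 K)), Bd =
    badP F ∪ badP D ∪ badP Rk ∪ badP Qk ∪ badP G ∪
      {v | 1 < v.valuation K (2 : K)⁻¹} ∪ ⋃ α ∈ A, badP (X - C α) := ⟨_, rfl⟩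
  have hBdf : Bd.Finite := by
    rw [hBd]
    refine (((((((badP_fin F).union (badP_fin D)).union (badP_fin Rk)).union (badP_fin Qk)).union
      (badP_fin G)).union (fin_pole _)).union ?_)
    exact Set.Finite.biUnion A.finite_toSet fun α _ => badP_fin _
  obtain ⟨CB, hCB⟩ : ∃ c : ℝ, c = wt (fun v : HeightOneSpectrum (𝓞 K) => v ∈ Bd) := ⟨_, rfl⟩
  have hCB0 : 0 ≤ CB := by rw [hCB]; exact wt_nonneg _
  -- the exceptional points
  obtain ⟨Z, hZ⟩ : ∃ Z : K[X], Z = F * (F - 1) * P * G := ⟨_, rfl⟩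
  have hZ0 : Z ≠ 0 := by
    have h1 : F ≠ 0 := by
      rintro h
      rw [h, natDegree_zero] at hFd
      omega
    have h2 : F - 1 ≠ 0 := by
      intro h
      rw [sub_eq_zero.1 h, natDegree_one] at hFd
      omega
    have h3 : P ≠ 0 := by
      rintro h
      rw [h, natDegree_zero] at hPd
      omega
    rw [hZ]
    exact mul_ne_zero (mul_ne_zero (mul_ne_zero h1 h2) h3) hG0
  obtain ⟨E, hE⟩ : ∃ E : Finset K, E = Z.roots.toFinset := ⟨_, rfl⟩
  obtain ⟨C4, hC4⟩ : ∃ c : ℝ, c = ∑ x ∈ E, |((A.card : ℝ) - 1 - ε) * logHeight₁ x| := ⟨_, rfl⟩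
  have hC40 : 0 ≤ C4 := by rw [hC4]; exact Finset.sum_nonneg fun _ _ => abs_nonneg _
  refine ⟨|C0| + |C2| + |C3| + CB + C4 + d * (|C0| + k * (3 * Real.log 2)), ?_⟩
  have hlog2 : 0 ≤ Real.log 2 := Real.log_nonneg (by norm_num)
  have hcc : 0 ≤ d * (|C0| + k * (3 * Real.log 2)) := by positivity
  intro x hxA
  have hwp := wt_nonneg (fun v : HeightOneSpectrum (𝓞 K) => 1 < v.valuation K x)
  have hws : 0 ≤ ∑ α ∈ A, wt (fun v : HeightOneSpectrum (𝓞 K) => v.valuation K (x - α) < 1) :=
    Finset.sum_nonneg fun α _ => wt_nonneg _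
  have hh := zero_le_logHeight₁ x
  by_cases hxE : x ∈ E
  · have h1 : |((A.card : ℝ) - 1 - ε) * logHeight₁ x| ≤ C4 := by
      rw [hC4]
      exact Finset.single_le_sum (f := fun x => |((A.card : ℝ) - 1 - ε) * logHeight₁ x|)
        (fun _ _ => abs_nonneg _) hxE
    have h2 := le_abs_self (((A.card : ℝ) - 1 - ε) * logHeight₁ x)
    have h3 := abs_nonneg C0
    have h4 := abs_nonneg C2
    have h5 := abs_nonneg C3
    linarith
  · have hZx : Z.eval x ≠ 0 := by
      intro h
      apply hxE
      rw [hE, Multiset.mem_toFinset, mem_roots hZ0]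
      exact h
    rw [hZ, eval_mul, eval_mul, eval_mul] at hZx
    have hG : G.eval x ≠ 0 := right_ne_zero_of_mul hZx
    have hPx : P.eval x ≠ 0 := right_ne_zero_of_mul (left_ne_zero_of_mul hZx)
    have hW := left_ne_zero_of_mul (left_ne_zero_of_mul hZx)
    have hFx : F.eval x ≠ 0 := left_ne_zero_of_mul hW
    have hF1 : (F - 1).eval x ≠ 0 := right_ne_zero_of_mul hW
    rw [eval_sub, eval_one] at hF1
    obtain ⟨y, hy⟩ : ∃ y : K, y = P.eval x := ⟨_, rfl⟩
    rw [← hy] at hPx
    have hy2 : y = 2 * F.eval x - 1 := by rw [hy, hPe]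
    have hgen : Gen y⁻¹ := by
      refine ⟨inv_ne_zero hPx, ?_, ?_⟩
      · intro h
        rw [inv_eq_one] at h
        apply hF1
        linear_combination (h - hy2) / 2
      · intro h
        have h1 : y = -1 := by rw [← inv_inv y, h, inv_neg, inv_one]
        apply hFx
        linear_combination (h1 - hy2) / 2
    -- the inequality of the thin set
    have hdown := down (K := K) (fun _ => True) (D := 0) le_rfl k (C := |C0|)
      (ε := ε / n / 2 ^ k) (abs_nonneg C0) (by positivity) (by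
      intro u hu
      have h1 := hC0 u hu
      have h2 : wt (fun v : HeightOneSpectrum (𝓞 K) => True ∧ Near (tv k u)⁻¹ v) =
          wt (fun v => Near (tv k u)⁻¹ v) := by
        congr 1
        funext v
        rw [true_and]
      rw [h2, ← hd]
      have h3 : C0 ≤ d * |C0| := by
        have := le_abs_self C0
        have h4 := abs_nonneg C0
        nlinarith
      linarith) y hgen
    have h2 : wt (fun v : HeightOneSpectrum (𝓞 K) => True ∧ Near y⁻¹ v) =
        wt (fun v => Near y⁻¹ v) := by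
      congr 1
      funext v
      rw [true_and]
    rw [h2, ← hd, logHeight₁_inv, add_zero] at hdown
    have e4 : (2 : ℝ) ^ k * (ε / n / 2 ^ k) = ε / n := by field_simp
    rw [e4] at hdown
    -- the primes
    have hnear : ∀ v : HeightOneSpectrum (𝓞 K), Near y⁻¹ v →
        (v ∈ Bd ∨ 1 < v.valuation K x) ∨ ((∃ α ∈ A, v.valuation K (x - α) < 1) ∨
          v.valuation K (G.eval x) < 1) := by
      intro v hv
      by_contra hcon
      rw [not_or, not_or, not_or, not_lt, not_lt] at hcon
      obtain ⟨⟨hb, hx1⟩, hα, hGv⟩ := hcon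
      rw [hBd] at hb
      simp only [Set.mem_union, not_or] at hb
      obtain ⟨⟨⟨⟨⟨⟨bF, bD⟩, bR⟩, bQ⟩, bG⟩, b2⟩, bA⟩ := hb
      have v2 : v.valuation K (2 : K) = 1 := by
        have e2 : v.valuation K (2 : K) ≤ 1 := by
          have h : v.valuation K (algebraMap (𝓞 K) K 2) ≤ 1 :=
            v.valuation_le_one (K := K) (2 : 𝓞 K)
          rwa [map_ofNat] at h
        refine le_antisymm e2 ?_
        rw [Set.mem_ofPred_eq, not_lt, map_inv₀] at b2
        have h0 : v.valuation K (2 : K) ≠ 0 := (Valuation.ne_zero_iff _).2 two_ne_zero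
        exact (inv_le_one₀ (zero_lt_iff.2 h0)).1 b2
      have vF := eval_le_one bF hx1
      have vR := eval_le_one bR hx1
      have vQ := eval_le_one bQ hx1
      have vF1 : v.valuation K (F.eval x - 1) ≤ 1 :=
        Valuation.map_sub_le _ vF (by rw [map_one])
      have vy : v.valuation K y ≤ 1 := by
        rw [hy2]
        refine Valuation.map_sub_le _ ?_ (by rw [map_one])
        rw [map_mul, v2, one_mul]
        exact vF
      have vy0 : v.valuation K y ≠ 0 := (Valuation.ne_zero_iff _).2 hPx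
      have hW1 : v.valuation K (F.eval x * (F.eval x - 1)) < 1 := by
        rw [map_mul]
        rcases hv with h | h | h
        · exfalso
          rw [map_inv₀] at h
          exact absurd ((inv_lt_one₀ (zero_lt_iff.2 vy0)).1 h) (not_lt.2 vy)
        · have e5 : y⁻¹ - 1 = -(2 * (F.eval x - 1)) / y := by
            field_simp
            rw [hy2]
            ring
          rw [e5, map_div₀, Valuation.map_neg, map_mul, v2, one_mul,
            div_lt_one₀ (zero_lt_iff.2 vy0)] at h
          exact mul_lt_one_of_nonneg_of_lt_one_right vF zero_le (h.trans_le vy)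
        · have e5 : y⁻¹ + 1 = (2 * F.eval x) / y := by
            field_simp
            rw [hy2]
            ring
          rw [e5, map_div₀, map_mul, v2, one_mul, div_lt_one₀ (zero_lt_iff.2 vy0)] at h
          exact mul_lt_one_of_nonneg_of_lt_one_left zero_le (h.trans_le vy) vF1
      have hR1 : v.valuation K (Rk.eval x) < 1 := by
        by_contra hcon
        rw [not_lt] at hcon
        have h3 : v.valuation K (Rk.eval x) = 1 := le_antisymm vR hcon
        have h4 : v.valuation K (D.eval x) * v.valuation K (Qk.eval x) = 1 := by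
          rw [← map_mul, ← eval_mul, ← e2, eval_pow, map_pow, h3, one_pow]
        have h5 : 1 ≤ v.valuation K (D.eval x) := by
          by_contra h6
          rw [not_le] at h6
          have h7 := mul_lt_one_of_nonneg_of_lt_one_left zero_le h6 vQ
          exact absurd h4 h7.ne
        have h6 : v.valuation K (F.eval x * (F.eval x - 1)) = v.valuation K (D.eval x) := by
          have h7 : F.eval x * (F.eval x - 1) = (F * (F - 1)).eval x := by
            rw [eval_mul, eval_sub, eval_one]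
          rw [h7, e1, eval_mul, map_mul, h3, mul_one]
        rw [h6] at hW1
        exact absurd hW1 (not_lt.2 h5)
      rw [e3, eval_mul, map_mul, eval_prod, map_prod] at hR1
      have h8 : (1 : _) ≤ ∏ α ∈ A, v.valuation K ((X - C α : K[X]).eval x) := by
        refine Finset.one_le_prod' fun α hαA => ?_
        rw [eval_sub, eval_X, eval_C]
        by_contra h9
        exact hα ⟨α, hαA, not_le.1 h9⟩
      exact absurd hR1 (not_lt.2 (one_le_mul h8 hGv))
    have hf1 : {v : HeightOneSpectrum (𝓞 K) | v ∈ Bd ∨ 1 < v.valuation K x}.Finite :=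
      hBdf.union (fin_pole x)
    obtain ⟨hf2, hs2⟩ := wt_exists_le A (fun α (v : HeightOneSpectrum (𝓞 K)) =>
      v.valuation K (x - α) < 1) (fun α hαA => fin_zero (sub_ne_zero.2 fun h =>
        hxA (h ▸ hαA)))
    have hf3 : {v : HeightOneSpectrum (𝓞 K) | v.valuation K (G.eval x) < 1}.Finite :=
      fin_zero hG
    have hf4 : {v : HeightOneSpectrum (𝓞 K) | (∃ α ∈ A, v.valuation K (x - α) < 1) ∨
          v.valuation K (G.eval x) < 1}.Finite := hf2.union hf3
    have hle1 : wt (fun v => Near y⁻¹ v) ≤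
        wt (fun v => v ∈ Bd ∨ 1 < v.valuation K x) +
          wt (fun v => (∃ α ∈ A, v.valuation K (x - α) < 1) ∨ v.valuation K (G.eval x) < 1) :=
      (wt_mono (hf1.union hf4) hnear).trans (wt_or_le hf1 hf4)
    have hle2 : wt (fun v => v ∈ Bd ∨ 1 < v.valuation K x) ≤ wt (fun v => v ∈ Bd) +
        wt (fun v : HeightOneSpectrum (𝓞 K) => 1 < v.valuation K x) :=
      wt_or_le (P := fun v => v ∈ Bd) hBdf (fin_pole x)
    have hle3 : wt (fun v => (∃ α ∈ A, v.valuation K (x - α) < 1) ∨ v.valuation K (G.eval x) < 1) ≤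
        wt (fun v : HeightOneSpectrum (𝓞 K) => ∃ α ∈ A, v.valuation K (x - α) < 1) +
          wt (fun v : HeightOneSpectrum (𝓞 K) => v.valuation K (G.eval x) < 1) :=
      wt_or_le hf2 hf3
    have hle4 := (zero_wt' hG).trans (hC3 x)
    have hle5 := hC2 x
    rw [hPd, ← hy] at hle5
    rw [← hCB] at hle2
    have hdeg' : (A.card : ℝ) + G.natDegree = n + 1 := by exact_mod_cast hdeg
    have a0 := le_abs_self C2
    have a3 := le_abs_self C3
    have a1 := abs_nonneg C0
    have a2 := abs_nonneg C2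
    have a4 := abs_nonneg C3
    have hhy := zero_le_logHeight₁ y
    have hmain : ((n : ℝ) - ε) * logHeight₁ x ≤ (1 - ε / n) * logHeight₁ y + |C2| ∨
        (n : ℝ) - ε ≤ 0 := by
      by_cases hεn : ε ≤ n
      · left
        have h3 : 0 ≤ 1 - ε / n := by
          rw [sub_nonneg, div_le_one hn0]
          exact hεn
        have h4 := mul_le_mul_of_nonneg_left hle5 h3
        have h5 : (1 - ε / n) * (n * logHeight₁ x) = ((n : ℝ) - ε) * logHeight₁ x := by
          field_simp
        have h6 : (1 - ε / n) * (logHeight₁ y + C2) ≤ (1 - ε / n) * logHeight₁ y + |C2| := by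
          rw [mul_add]
          have h7 : (1 - ε / n) * C2 ≤ (1 - ε / n) * |C2| := mul_le_mul_of_nonneg_left a0 h3
          have h8 : (1 - ε / n) * |C2| ≤ 1 * |C2| := by
            refine mul_le_mul_of_nonneg_right ?_ a2
            have : 0 ≤ ε / n := by positivity
            linarith
          linarith
        linarith
      · right
        linarith
    have hcard : ((A.card : ℝ) - 1 - ε) * logHeight₁ x =
        ((n : ℝ) - ε) * logHeight₁ x - G.natDegree * logHeight₁ x := by
      have : (A.card : ℝ) = n + 1 - G.natDegree := by linarith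
      rw [this]
      ring
    rcases hmain with h3 | h3
    · linarith
    · have h4 : ((n : ℝ) - ε) * logHeight₁ x ≤ 0 := mul_nonpos_of_nonpos_of_nonneg h3 hh
      have h5 : 0 ≤ (G.natDegree : ℝ) * logHeight₁ x := by positivity
      linarith

end Pool.Agent.Q290.NF
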