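import Pool.Agent.Q290.NF.LineQ

/-!
# Points of the line with prescribed contact orders
-/

set_option autoImplicit false

namespace Pool.Agent.Q290.NF

open NumberField IsDedekindDomain Height Polynomial

variable {K : Type} [Field K] [NumberField K]

/-- poles of order at least `m` -/
theorem pole_lem (m : ℕ) (hm : 1 ≤ m) (x : K) {P : HeightOneSpectrum (𝓞 K) → Prop}
    (hP : ∀ v, P v → WithZero.exp (m : ℤ) ≤ v.valuation K x) :
    {v | P v}.Finite ∧ m * wt P ≤ logHeight₁ x := by
  classical
  have hm0 : (0 : ℝ) < m := by exact_mod_cast hm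
  have h1 : 0 ≤ ∑ w : InfinitePlace K, (w.mult : ℝ) * Real.posLog (w x) :=
    Finset.sum_nonneg fun w _ => mul_nonneg (Nat.cast_nonneg _) Real.posLog_nonneg
  have h2 : ∑ᶠ w : FinitePlace K, Real.posLog (w x) =
      ∑ᶠ v : HeightOneSpectrum (𝓞 K), Real.posLog (FinitePlace.mk v x) :=
    (finsum_comp_equiv FinitePlace.equivHeightOneSpectrum.symm).symm
  have hP1 : ∀ v, P v → 1 < v.valuation K x := by
    intro v hv
    refine lt_of_lt_of_le ?_ (hP v hv)
    rw [← WithZero.exp_zero, WithZero.exp_lt_exp]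
    exact_mod_cast hm
  have hPf : {v | P v}.Finite := (fin_pole x).subset fun v hv => hP1 v hv
  refine ⟨hPf, ?_⟩
  rw [NumberField.logHeight₁_eq]
  have h3 : m * wt P ≤ ∑ᶠ v : HeightOneSpectrum (𝓞 K), Real.posLog (FinitePlace.mk v x) := by
    unfold wt
    rw [mul_finsum' _ _ (hPf.subset (supp_sub _))]
    refine finsum_le_finsum' ?_ ?_ fun v => ?_
    · refine hPf.subset fun v hv => ?_
      rw [Function.mem_support] at hv
      by_contra h
      exact hv (by rw [ind_neg (P := P) h, mul_zero])
    · refine (fin_pole x).subset fun v hv => ?_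
      rw [Function.mem_support] at hv
      by_contra h
      rw [Set.mem_ofPred_eq, not_lt] at h
      apply hv
      rw [Real.posLog_eq_zero_iff, abs_of_nonneg (apply_nonneg _ _)]
      exact mk_le_one.2 h
    · by_cases h : P v
      · rw [ind_pos (P := P) h]
        have h5 : (1 : ℝ) < (Ideal.absNorm v.asIdeal : ℝ) := by
          exact_mod_cast HeightOneSpectrum.one_lt_absNorm v
        have h4 : (Ideal.absNorm v.asIdeal : ℝ) ^ m ≤ FinitePlace.mk v x := by
          rw [fin_mk]
          have h6 := (WithZeroMulInt.toNNReal_strictMono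
            (HeightOneSpectrum.one_lt_absNorm_nnreal v)).monotone (hP v h)
          have h7 : WithZeroMulInt.toNNReal (HeightOneSpectrum.absNorm_ne_zero v)
              (WithZero.exp (m : ℤ)) = ((Ideal.absNorm v.asIdeal : ℕ) : NNReal) ^ m := by
            rw [WithZeroMulInt.toNNReal_neg_apply _ WithZero.exp_ne_zero]
            exact zpow_natCast _ m
          rw [h7] at h6
          exact_mod_cast h6
        have h8 : (1 : ℝ) ≤ FinitePlace.mk v x := (one_le_pow₀ h5.le).trans h4
        rw [Real.posLog_eq_log (by rw [abs_of_nonneg (apply_nonneg _ _)]; exact h8)]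
        have h9 := Real.log_le_log (by positivity) h4
        rw [Real.log_pow] at h9
        exact_mod_cast h9
      · rw [ind_neg (P := P) h, mul_zero]
        exact Real.posLog_nonneg
  rw [h2]
  linarith

theorem wt_disj {P Q : HeightOneSpectrum (𝓞 K) → Prop} (hP : {v | P v}.Finite)
    (hQ : {v | Q v}.Finite) (h : ∀ v, P v → ¬ Q v) :
    wt P + wt Q = wt (fun v => P v ∨ Q v) := by
  unfold wt
  rw [← finsum_add_distrib (hP.subset (supp_sub _)) (hQ.subset (supp_sub _))]
  refine finsum_congr fun v => ?_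
  by_cases h1 : P v
  · rw [ind_pos h1, ind_neg (h v h1), add_zero, ind_pos (P := fun v => P v ∨ Q v) (Or.inl h1)]
  · by_cases h2 : Q v
    · rw [ind_neg h1, ind_pos h2, zero_add, ind_pos (P := fun v => P v ∨ Q v) (Or.inr h2)]
    · rw [ind_neg h1, ind_neg h2, ind_neg (P := fun v => P v ∨ Q v) (not_or.2 ⟨h1, h2⟩), add_zero]

theorem wt_sum_disj {ι : Type} (s : Finset ι) (P : ι → HeightOneSpectrum (𝓞 K) → Prop)
    (h : ∀ i ∈ s, {v | P i v}.Finite)
    (hd : ∀ i ∈ s, ∀ j ∈ s, i ≠ j → ∀ v, P i v → ¬ P j v) :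
    {v | ∃ i ∈ s, P i v}.Finite ∧ ∑ i ∈ s, wt (P i) = wt (fun v => ∃ i ∈ s, P i v) := by
  classical
  induction s using Finset.induction_on with
  | empty =>
    refine ⟨Set.finite_empty.subset fun v hv => ?_, ?_⟩
    · obtain ⟨i, hi, -⟩ := hv
      exact absurd hi (Finset.notMem_empty i)
    · rw [Finset.sum_empty]
      unfold wt
      refine (finsum_eq_zero_of_forall_eq_zero fun v => ind_neg ?_).symm
      rintro ⟨i, hi, -⟩
      exact Finset.notMem_empty i hi
  | insert a s ha ih =>
    obtain ⟨ih1, ih2⟩ := ih (fun i hi => h i (Finset.mem_insert_of_mem hi))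
      (fun i hi j hj => hd i (Finset.mem_insert_of_mem hi) j (Finset.mem_insert_of_mem hj))
    have h1 := h a (Finset.mem_insert_self a s)
    have hiff : ∀ v, (∃ i ∈ insert a s, P i v) ↔ (P a v ∨ ∃ i ∈ s, P i v) := by
      intro v
      rw [Finset.exists_mem_insert]
    have e : (fun v => ∃ i ∈ insert a s, P i v) = fun v => (P a v ∨ ∃ i ∈ s, P i v) :=
      funext fun v => propext (hiff v)
    refine ⟨(h1.union ih1).subset fun v hv => (hiff v).1 hv, ?_⟩
    rw [Finset.sum_insert ha, ih2, e]
    refine wt_disj h1 ih1 ?_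
    rintro v hv ⟨i, hi, hiv⟩
    exact hd a (Finset.mem_insert_self a s) i (Finset.mem_insert_of_mem hi)
      (fun h0 => ha (h0 ▸ hi)) v hv hiv

end Pool.Agent.Q290.NF
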