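import Pool.Agent.Q290.NF.Basic

/-!
# The three point inequality over number fields: one step
-/

set_option autoImplicit false

namespace Pool.Agent.Q290.NF

open NumberField IsDedekindDomain Height

variable {K : Type} [Field K] [NumberField K]

/-- `t` reduces to `0`, `1` or `-1` -/
def Near (t : K) (v : HeightOneSpectrum (𝓞 K)) : Prop :=
  v.valuation K t < 1 ∨ v.valuation K (t - 1) < 1 ∨ v.valuation K (t + 1) < 1

/-- different from `0`, `1`, `-1` -/
def Gen (t : K) : Prop := t ≠ 0 ∧ t ≠ 1 ∧ t ≠ -1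

theorem fin_near {t : K} (h : Gen t) : {v : HeightOneSpectrum (𝓞 K) | Near t v}.Finite := by
  refine ((fin_zero h.1).union ((fin_zero (sub_ne_zero.2 h.2.1)).union
    (fin_zero (x := t + 1) ?_))).subset ?_
  · intro h0
    exact h.2.2 (by linear_combination h0)
  · intro v hv
    rcases hv with h1 | h1 | h1
    · exact Or.inl h1
    · exact Or.inr (Or.inl h1)
    · exact Or.inr (Or.inr h1)

/-- the map -/
noncomputable def psi (t : K) : K := t ^ 2 / (2 - t ^ 2)

theorem psi_gen {t : K} (h : Gen t) (h2 : t ^ 2 ≠ 2) : Gen (psi t) := by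
  have h3 : (2 : K) - t ^ 2 ≠ 0 := fun h0 => h2 (by linear_combination -h0)
  refine ⟨div_ne_zero (pow_ne_zero _ h.1) h3, ?_, ?_⟩
  · intro h4
    unfold psi at h4
    rw [div_eq_one_iff_eq h3] at h4
    have h5 : (t - 1) * (t + 1) = 0 := by linear_combination h4 / 2
    rcases mul_eq_zero.1 h5 with h6 | h6
    · exact h.2.1 (by linear_combination h6)
    · exact h.2.2 (by linear_combination h6)
  · intro h4
    unfold psi at h4
    rw [div_eq_iff h3] at h4
    have h5 : (2 : K) = 0 := by linear_combination h4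
    exact two_ne_zero h5

/-- a reduction of `psi t` to `0`, `1`, `-1` comes from `t`, or from a pole of `t` or of `1/2` -/
theorem near_psi {t : K} (h2 : t ^ 2 ≠ 2) {v : HeightOneSpectrum (𝓞 K)} (h : Near (psi t) v) :
    Near t v ∨ (1 < v.valuation K t ∨ 1 < v.valuation K (2 : K)⁻¹) := by
  by_contra hcon
  rw [not_or, not_or, not_lt, not_lt] at hcon
  obtain ⟨hn, ht, hv2⟩ := hcon
  have h3 : (2 : K) - t ^ 2 ≠ 0 := fun h0 => h2 (by linear_combination -h0)
  unfold Near at hn
  rw [not_or, not_or, not_lt, not_lt, not_lt] at hn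
  obtain ⟨hn0, hn1, hn2⟩ := hn
  have e2 : v.valuation K (2 : K) ≤ 1 := by
    have h : v.valuation K (algebraMap (𝓞 K) K 2) ≤ 1 := v.valuation_le_one (K := K) (2 : 𝓞 K)
    rwa [map_ofNat] at h
  have e2' : v.valuation K (2 : K) = 1 := by
    refine le_antisymm e2 ?_
    rw [map_inv₀] at hv2
    have h0 : v.valuation K (2 : K) ≠ 0 := (Valuation.ne_zero_iff _).2 two_ne_zero
    exact (inv_le_one₀ (zero_lt_iff.2 h0)).1 hv2
  have et2 : v.valuation K (t ^ 2) ≤ 1 := by
    rw [map_pow]
    exact pow_le_one₀ zero_le ht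
  have hd : v.valuation K (2 - t ^ 2) ≤ 1 := Valuation.map_sub_le _ e2 et2
  have hd0 : v.valuation K (2 - t ^ 2) ≠ 0 := (Valuation.ne_zero_iff _).2 h3
  rcases h with h | h | h
  · unfold psi at h
    rw [map_div₀, div_lt_one₀ (zero_lt_iff.2 hd0)] at h
    have h5 : (1 : _) ≤ v.valuation K (t ^ 2) := by
      rw [map_pow]; exact one_le_pow₀ hn0
    exact absurd (h5.trans_lt h) (not_lt.2 hd)
  · have e : psi t - 1 = 2 * ((t - 1) * (t + 1)) / (2 - t ^ 2) := by
      unfold psi
      field_simp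
      ring
    rw [e, map_div₀, div_lt_one₀ (zero_lt_iff.2 hd0), map_mul, map_mul, e2', one_mul] at h
    have h5 : (1 : _) ≤ v.valuation K (t - 1) * v.valuation K (t + 1) := one_le_mul hn1 hn2
    exact absurd (h5.trans_lt h) (not_lt.2 hd)
  · have e : psi t + 1 = 2 / (2 - t ^ 2) := by
      unfold psi
      field_simp
      ring
    rw [e, map_div₀, div_lt_one₀ (zero_lt_iff.2 hd0), e2'] at h
    exact absurd h (not_lt.2 hd)

/-- the height of `2` -/
theorem height_two : logHeight₁ (2 : K) = Module.finrank ℚ K * Real.log 2 := by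
  have hna : ∀ w : FinitePlace K, w (2 : K) ≤ 1 := by
    intro w
    have h : w.maximalIdeal.valuation K (algebraMap (𝓞 K) K 2) ≤ 1 :=
      w.maximalIdeal.valuation_le_one (K := K) (2 : 𝓞 K)
    rw [map_ofNat] at h
    have h2 := mk_le_one.2 h
    rwa [FinitePlace.mk_maximalIdeal] at h2
  have har : ∀ w : InfinitePlace K, w (2 : K) = 2 := by
    intro w
    have h : w ((2 : ℕ) : K) = ((2 : ℕ) : ℝ) := by
      rw [← InfinitePlace.norm_embedding_eq, map_natCast, Complex.norm_natCast]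
    exact_mod_cast h
  rw [NumberField.logHeight₁_eq]
  have h1 : ∑ᶠ w : FinitePlace K, Real.posLog (w (2 : K)) = 0 := by
    refine finsum_eq_zero_of_forall_eq_zero fun w => ?_
    rw [Real.posLog_eq_zero_iff, abs_of_nonneg (apply_nonneg _ _)]
    exact hna w
  rw [h1, add_zero]
  have h2 : ∀ w : InfinitePlace K, (w.mult : ℝ) * Real.posLog (w (2 : K)) =
      (w.mult : ℝ) * Real.log 2 := by
    intro w
    rw [har, Real.posLog_eq_log (by rw [abs_of_pos (by norm_num)]; norm_num)]
  rw [Finset.sum_congr rfl fun w _ => h2 w, ← Finset.sum_mul]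
  congr 1
  exact_mod_cast InfinitePlace.sum_mult_eq

theorem wt_psi (R : HeightOneSpectrum (𝓞 K) → Prop) {t : K} (h : Gen t) (h2 : t ^ 2 ≠ 2) :
    wt (fun v => R v ∧ Near (psi t) v) ≤ wt (fun v => R v ∧ Near t v) + logHeight₁ t +
      Module.finrank ℚ K * Real.log 2 := by
  have hA : {v : HeightOneSpectrum (𝓞 K) | R v ∧ Near t v}.Finite :=
    (fin_near h).subset fun v hv => hv.2
  have h3 := wt_or_le (Q := fun v => 1 < v.valuation K t ∨ 1 < v.valuation K (2 : K)⁻¹) hA
    ((fin_pole t).union (fin_pole (2 : K)⁻¹))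
  have h4 := wt_or_le (P := fun v => 1 < v.valuation K t) (fin_pole t) (fin_pole (2 : K)⁻¹)
  have h5 := pole_le t
  have h6 := pole_le (2 : K)⁻¹
  rw [logHeight₁_inv, height_two] at h6
  have h7 : wt (fun v => R v ∧ Near (psi t) v) ≤
      wt (fun v => (R v ∧ Near t v) ∨ (1 < v.valuation K t ∨ 1 < v.valuation K (2 : K)⁻¹)) := by
    refine wt_mono (hA.union ((fin_pole t).union (fin_pole (2 : K)⁻¹))) fun v hv => ?_
    rcases near_psi h2 hv.2 with h8 | h8
    · exact Or.inl ⟨hv.1, h8⟩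
    · exact Or.inr h8
  refine h7.trans (h3.trans ?_)
  linarith

theorem height_psi {t : K} (h : Gen t) (h2 : t ^ 2 ≠ 2) :
    2 * logHeight₁ t ≤ logHeight₁ (psi t) + 2 * (Module.finrank ℚ K * Real.log 2) := by
  have h3 : (2 : K) - t ^ 2 ≠ 0 := fun h0 => h2 (by linear_combination -h0)
  have ht := h.1
  have e : (t ^ 2)⁻¹ = ((psi t)⁻¹ + 1) * (2 : K)⁻¹ := by
    unfold psi
    field_simp
    ring
  have h4 : 2 * logHeight₁ t = logHeight₁ ((t ^ 2)⁻¹) := by
    rw [logHeight₁_inv, logHeight₁_pow]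
    push_cast
    ring
  have h5 := logHeight₁_mul_le ((psi t)⁻¹ + 1) (2 : K)⁻¹
  have h6 := logHeight₁_add_le (psi t)⁻¹ (1 : K)
  rw [logHeight₁_inv, logHeight₁_one, totalWeight_eq_finrank] at h6
  rw [logHeight₁_inv, height_two] at h5
  rw [h4, e]
  linarith

end Pool.Agent.Q290.NF
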