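import Pool.Agent.Q290.NF.Step

/-!
# The values of the Chebyshev polynomials `T_n`, `n = 2 ^ k`, suffice
-/

set_option autoImplicit false

namespace Pool.Agent.Q290.NF

open NumberField IsDedekindDomain Height Polynomial

variable {K : Type} [Field K] [NumberField K]

/-- the value of the Chebyshev polynomial of degree `2 ^ k` -/
noncomputable def tv (k : ℕ) (u : K) : K := (Chebyshev.T K ((2 : ℤ) ^ k)).eval u

theorem tv_zero (u : K) : tv 0 u = u := by
  unfold tv
  rw [pow_zero, Chebyshev.T_one, eval_X]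

theorem tv_succ (k : ℕ) (u : K) : tv (k + 1) u = 2 * tv k u ^ 2 - 1 := by
  unfold tv
  rw [pow_succ', Chebyshev.T_mul, eval_comp, Chebyshev.T_two]
  simp

theorem psi_inv {y : K} (hy : y ≠ 0) : psi y⁻¹ = (2 * y ^ 2 - 1)⁻¹ := by
  unfold psi
  by_cases h : 2 * y ^ 2 - 1 = 0
  · have e : (2 : K) - y⁻¹ ^ 2 = 0 := by
      have : (2 : K) - y⁻¹ ^ 2 = (2 * y ^ 2 - 1) / y ^ 2 := by
        field_simp
      rw [this, h, zero_div]
    rw [e, div_zero, h, inv_zero]
  · have e : (2 : K) - y⁻¹ ^ 2 = (2 * y ^ 2 - 1) / y ^ 2 := by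
      field_simp
    rw [e]
    field_simp

/-- **one step down** -/
theorem step_down (R : HeightOneSpectrum (𝓞 K) → Prop) {D C ε : ℝ} (hD : 0 ≤ D) (hC : 0 ≤ C)
    (hε : 0 ≤ ε) {y : K} (hy : Gen y⁻¹)
    (h : Gen (2 * y ^ 2 - 1 : K)⁻¹ → (1 - ε) * logHeight₁ (2 * y ^ 2 - 1 : K)⁻¹ ≤
      wt (fun v => R v ∧ Near (2 * y ^ 2 - 1 : K)⁻¹ v) + D + Module.finrank ℚ K * C) :
    (1 - 2 * ε) * logHeight₁ y⁻¹ ≤ wt (fun v => R v ∧ Near y⁻¹ v) + D +
      Module.finrank ℚ K * (C + 3 * Real.log 2) := by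
  have hy0 : y ≠ 0 := fun h0 => hy.1 (by rw [h0, inv_zero])
  have hd : (0 : ℝ) ≤ Module.finrank ℚ K := Nat.cast_nonneg _
  have hl : 0 ≤ Real.log 2 := Real.log_nonneg (by norm_num)
  have hdl := mul_nonneg hd hl
  have hdC := mul_nonneg hd hC
  have hh := zero_le_logHeight₁ y⁻¹
  have hw := wt_nonneg (fun v => R v ∧ Near y⁻¹ v)
  rw [← psi_inv hy0] at h
  by_cases h2 : y⁻¹ ^ 2 = 2
  · have h3 : 2 * logHeight₁ y⁻¹ = Module.finrank ℚ K * Real.log 2 := by
      rw [← height_two, ← h2, logHeight₁_pow]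
      push_cast
      ring
    nlinarith
  · have h4 := h (psi_gen hy h2)
    have h5 := wt_psi R hy h2
    have h6 := height_psi hy h2
    rcases le_or_gt ε 1 with he | he
    · have h8 := mul_le_mul_of_nonneg_left h6 (sub_nonneg.2 he)
      have h9 := mul_nonneg hε hdl
      nlinarith
    · have h8 : 0 ≤ (2 * ε - 1) * logHeight₁ y⁻¹ := mul_nonneg (by linarith) hh
      nlinarith

/-- **going down from the thin set** -/
theorem down (R : HeightOneSpectrum (𝓞 K) → Prop) {D : ℝ} (hD : 0 ≤ D) (k : ℕ) :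
    ∀ {C ε : ℝ}, 0 ≤ C → 0 ≤ ε →
    (∀ u : K, Gen (tv k u)⁻¹ → (1 - ε) * logHeight₁ (tv k u)⁻¹ ≤
      wt (fun v => R v ∧ Near (tv k u)⁻¹ v) + D + Module.finrank ℚ K * C) →
    ∀ y : K, Gen y⁻¹ → (1 - 2 ^ k * ε) * logHeight₁ y⁻¹ ≤
      wt (fun v => R v ∧ Near y⁻¹ v) + D + Module.finrank ℚ K * (C + k * (3 * Real.log 2)) := by
  induction k with
  | zero =>
    intro C ε hC hε h y hy
    have := h y
    rw [tv_zero] at this
    simpa using this hy
  | succ k ih =>
    intro C ε hC hε h y hy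
    have hl : 0 ≤ Real.log 2 := Real.log_nonneg (by norm_num)
    have h1 := ih (C := C + 3 * Real.log 2) (ε := 2 * ε) (by positivity) (by positivity)
      (fun u hu => step_down R hD hC hε hu fun h2 => by
        have := h u
        rw [tv_succ] at this
        exact this h2) y hy
    refine le_trans (le_of_eq ?_) (h1.trans (le_of_eq ?_))
    · ring
    · push_cast
      ring

/-- the height of the values -/
theorem height_tv (k : ℕ) (u : K) :
    2 ^ k * logHeight₁ u ≤ logHeight₁ (tv k u) +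
      (2 ^ k - 1) * (2 * (Module.finrank ℚ K * Real.log 2)) := by
  have hl : 0 ≤ Module.finrank ℚ K * Real.log 2 :=
    mul_nonneg (Nat.cast_nonneg _) (Real.log_nonneg (by norm_num))
  induction k with
  | zero => rw [tv_zero]; simp
  | succ k ih =>
    have e : tv k u ^ 2 = (tv (k + 1) u + 1) * (2 : K)⁻¹ := by
      rw [tv_succ]
      field_simp
      ring
    have h4 : 2 * logHeight₁ (tv k u) = logHeight₁ (tv k u ^ 2) := by
      rw [logHeight₁_pow]
      push_cast
      ring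
    have h5 := logHeight₁_mul_le (tv (k + 1) u + 1) (2 : K)⁻¹
    have h6 := logHeight₁_add_le (tv (k + 1) u) (1 : K)
    rw [logHeight₁_one, totalWeight_eq_finrank] at h6
    rw [logHeight₁_inv, height_two, ← e] at h5
    rw [pow_succ]
    linarith

end Pool.Agent.Q290.NF
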