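import Pool.Agent.Q290.NF.Up

/-!
# Triples `a + b + c = 0` and the points of the line
-/

set_option autoImplicit false

namespace Pool.Agent.Q290.NF

open NumberField IsDedekindDomain Height Polynomial

variable {K : Type} [Field K] [NumberField K]

/-- the primes at which `a`, `b`, `c` do not have the same absolute value -/
def Rad (a b c : K) (v : HeightOneSpectrum (𝓞 K)) : Prop :=
  ¬ (v.valuation K a = v.valuation K b ∧ v.valuation K b = v.valuation K c)

theorem height_three_le (a b : K) : logHeight ![a, b, -(a + b)] ≤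
    logHeight₁ (a / b) + Module.finrank ℚ K * Real.log 2 := by
  rw [logHeight₁_div_eq_logHeight]
  let g : Fin 3 × Fin 2 → Fin 3 := fun p =>
    match p with
    | (0, 0) => 1
    | (0, 1) => 0
    | (1, 0) => 0
    | (1, 1) => 1
    | (2, _) => 2
  have h1 := logHeight_linearMap_apply_le (K := K) (![0, 1, -1] ∘ g) ![a, b]
  have h2 : (fun j => ∑ i, (![(0 : K), 1, -1] ∘ g) (j, i) * ![a, b] i) = ![a, b, -(a + b)] := by
    funext j
    rw [Fin.sum_univ_two]
    fin_cases j
    · show (1 : K) * a + 0 * b = a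
      ring
    · show (0 : K) * a + 1 * b = b
      ring
    · show (-1 : K) * a + -1 * b = -(a + b)
      ring
  have h3 : logHeight (![(0 : K), 1, -1] ∘ g) ≤ 0 := by
    refine (logHeight_comp_le g _).trans (le_of_eq ?_)
    rw [logHeight_cons_zero, ← logHeight₁_div_eq_logHeight, one_div, logHeight₁_inv,
      logHeight₁_neg, logHeight₁_one]
  rw [h2, Nat.card_eq_fintype_card, Fintype.card_fin, NumberField.totalWeight_eq_finrank] at h1
  push_cast at h1
  linarith

theorem height_le_three (a b c : K) : logHeight₁ (a / b) ≤ logHeight ![a, b, c] := by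
  rw [logHeight₁_div_eq_logHeight]
  have h := logHeight_comp_le (K := K) ![(0 : Fin 3), 1] ![a, b, c]
  refine le_trans (le_of_eq ?_) h
  congr 1
  funext i
  fin_cases i <;> rfl

/-- the Möbius map `z ↦ (1 - z) / (1 + z)` -/
theorem height_moebius {z : K} (hz : 1 + z ≠ 0) : logHeight₁ ((1 - z) / (1 + z)) ≤
    logHeight₁ z + 3 * (Module.finrank ℚ K * Real.log 2) := by
  have e : (1 - z) / (1 + z) = 2 / (1 + z) - 1 := by
    field_simp
    ring
  have h1 := logHeight₁_sub_le (2 / (1 + z)) (1 : K)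
  rw [← e, logHeight₁_one, NumberField.totalWeight_eq_finrank] at h1
  have h2 := logHeight₁_mul_le (2 : K) (1 + z)⁻¹
  rw [logHeight₁_inv, ← div_eq_mul_inv] at h2
  have h3 := logHeight₁_add_le (1 : K) z
  rw [logHeight₁_one, NumberField.totalWeight_eq_finrank] at h3
  have h4 := height_two' K
  linarith

/-- **The point of a triple.** -/
theorem triple {a b c : K} (ha : a ≠ 0) (hb : b ≠ 0) (hc : c ≠ 0) (h : a + b + c = 0)
    (hs : b - a ≠ 0) :
    Gen ((b - a) / (b + a))⁻¹ ∧
    logHeight ![a, b, c] ≤ logHeight₁ ((b - a) / (b + a))⁻¹ +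
      4 * (Module.finrank ℚ K * Real.log 2) ∧
    logHeight₁ ((b - a) / (b + a))⁻¹ ≤ logHeight ![a, b, c] +
      3 * (Module.finrank ℚ K * Real.log 2) ∧
    {v | Rad a b c v}.Finite ∧
    wt (fun v => Near ((b - a) / (b + a))⁻¹ v) ≤ wt (Rad a b c) +
      Module.finrank ℚ K * Real.log 2 ∧
    wt (Rad a b c) ≤ wt (fun v => Near ((b - a) / (b + a))⁻¹ v) +
      Module.finrank ℚ K * Real.log 2 := by
  have hba : b + a ≠ 0 := by
    intro h0
    apply hc
    linear_combination h - h0
  have hc' : c = -(a + b) := by linear_combination h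
  have h2 : (2 : K) ≠ 0 := two_ne_zero
  obtain ⟨s, hs'⟩ : ∃ s : K, s = (b - a) / (b + a) := ⟨_, rfl⟩
  have hs0 : s ≠ 0 := by rw [hs']; exact div_ne_zero hs hba
  rw [← hs']
  have e1 : 1 - s = 2 * a / (b + a) := by rw [hs']; field_simp; ring
  have e2 : 1 + s = 2 * b / (b + a) := by rw [hs']; field_simp; ring
  have hgen : Gen s⁻¹ := by
    refine ⟨inv_ne_zero hs0, ?_, ?_⟩
    · intro h1
      rw [inv_eq_one] at h1
      rw [h1, sub_self, eq_comm, div_eq_zero_iff] at e1
      rcases e1 with e1 | e1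
      · exact mul_ne_zero h2 ha e1
      · exact hba e1
    · intro h1
      rw [inv_eq_iff_eq_inv, inv_neg, inv_one] at h1
      rw [h1, add_neg_cancel, eq_comm, div_eq_zero_iff] at e2
      rcases e2 with e2 | e2
      · exact mul_ne_zero h2 hb e2
      · exact hba e2
  have hab : 1 + a / b ≠ 0 := by
    rw [one_add_div hb]
    exact div_ne_zero hba hb
  have e3 : s = (1 - a / b) / (1 + a / b) := by
    rw [hs', one_add_div hb, one_sub_div hb, div_div_div_cancel_right₀ hb]
  have hs1 : 1 + s ≠ 0 := by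
    rw [e2]
    exact div_ne_zero (mul_ne_zero h2 hb) hba
  have e4 : a / b = (1 - s) / (1 + s) := by
    rw [e1, e2]
    field_simp
  have k1 : logHeight ![a, b, c] ≤ logHeight₁ s⁻¹ + 4 * (Module.finrank ℚ K * Real.log 2) := by
    have h1 := height_three_le a b
    have h3 := height_moebius hs1
    rw [← e4] at h3
    rw [hc', logHeight₁_inv]
    linarith
  have k2 : logHeight₁ s⁻¹ ≤ logHeight ![a, b, c] + 3 * (Module.finrank ℚ K * Real.log 2) := by
    have h1 := height_le_three a b c
    have h3 := height_moebius hab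
    rw [← e3] at h3
    rw [logHeight₁_inv]
    linarith
  obtain ⟨P2, hP2⟩ : ∃ P : HeightOneSpectrum (𝓞 K) → Prop, P = fun v =>
    v.valuation K ((2 : ℕ) : K) < 1 := ⟨_, rfl⟩
  have f2 : {v | P2 v}.Finite := by
    rw [hP2]
    exact fin_zero (by exact_mod_cast h2)
  have w2 : wt P2 ≤ Module.finrank ℚ K * Real.log 2 := by
    have := wt_nat (K := K) (n := 2) (by norm_num)
    rw [hP2]
    exact_mod_cast this
  have fn : {v | Near s⁻¹ v}.Finite := fin_near hgen
  have hv2 : ∀ v : HeightOneSpectrum (𝓞 K), ¬ P2 v → v.valuation K (2 : K) = 1 := by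
    intro v hv
    rw [hP2] at hv
    have h : v.valuation K (algebraMap (𝓞 K) K ((2 : ℕ) : 𝓞 K)) ≤ 1 :=
      v.valuation_le_one (K := K) _
    rw [map_natCast] at h
    have h3 := le_antisymm h (not_lt.1 hv)
    exact_mod_cast h3
  have sub1 : ∀ v : HeightOneSpectrum (𝓞 K), Rad a b c v → P2 v ∨ Near s⁻¹ v := by
    intro v hv
    by_contra hcon
    apply hv
    have hn2 : v.valuation K (2 : K) = 1 := hv2 v fun h => hcon (Or.inl h)
    have hnot : ¬ (v.valuation K ((2 * 1 : ℕ) : K) < 1 ∨ Near s⁻¹ v) := by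
      rintro (h3 | h3)
      · push_cast at h3
        rw [hn2] at h3
        exact lt_irrefl _ h3
      · exact hcon (Or.inr h3)
    obtain ⟨-, u1, u2⟩ := unit_places hgen v hnot
    have hc0 : v.valuation K (b + a) ≠ 0 := (Valuation.ne_zero_iff _).2 hba
    have g1 : v.valuation K a = v.valuation K (b + a) := by
      have e : a = (1 - s) / 2 * (b + a) := by rw [e1]; field_simp
      conv_lhs => rw [e]
      rw [map_mul, u1, one_mul]
    have g2 : v.valuation K b = v.valuation K (b + a) := by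
      have e : b = (1 + s) / 2 * (b + a) := by rw [e2]; field_simp
      conv_lhs => rw [e]
      rw [map_mul, u2, one_mul]
    refine ⟨g1.trans g2.symm, g2.trans ?_⟩
    rw [hc', Valuation.map_neg, add_comm]
  have sub2 : ∀ v : HeightOneSpectrum (𝓞 K), Near s⁻¹ v → P2 v ∨ Rad a b c v := by
    intro v hv
    by_contra hcon
    rw [not_or, Rad, not_not] at hcon
    obtain ⟨h3, h4, h5⟩ := hcon
    have hn2 := hv2 v h3
    have hcv : v.valuation K (b + a) = v.valuation K b := by
      rw [h5, hc', Valuation.map_neg, add_comm]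
    have hb0 : v.valuation K b ≠ 0 := (Valuation.ne_zero_iff _).2 hb
    have g1 : v.valuation K (1 - s) = 1 := by
      rw [e1, map_div₀, map_mul, hn2, one_mul, hcv, h4, div_self hb0]
    have g2 : v.valuation K (1 + s) = 1 := by
      rw [e2, map_div₀, map_mul, hn2, one_mul, hcv, div_self hb0]
    have g3 : v.valuation K s ≤ 1 := by
      have e : s = 1 - (1 - s) := by ring
      rw [e]
      exact Valuation.map_sub_le _ (by rw [map_one]) g1.le
    have g4 : 1 ≤ v.valuation K s⁻¹ := by
      rw [map_inv₀]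
      exact (one_le_inv₀ (zero_lt_iff.2 ((Valuation.ne_zero_iff _).2 hs0))).2 g3
    rcases hv with hv | hv | hv
    · exact absurd hv (not_lt.2 g4)
    · have e : s⁻¹ - 1 = s⁻¹ * (1 - s) := by rw [mul_sub, inv_mul_cancel₀ hs0, mul_one]
      rw [e, map_mul, g1, mul_one] at hv
      exact absurd hv (not_lt.2 g4)
    · have e : s⁻¹ + 1 = s⁻¹ * (1 + s) := by rw [mul_add, inv_mul_cancel₀ hs0, mul_one]
      rw [e, map_mul, g2, mul_one] at hv
      exact absurd hv (not_lt.2 g4)
  have fr : {v | Rad a b c v}.Finite := (f2.union fn).subset fun v hv => sub1 v hv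
  refine ⟨hgen, k1, k2, fr, ?_, ?_⟩
  · have h1 : wt (fun v => P2 v ∨ Rad a b c v) ≤ wt P2 + wt (Rad a b c) := wt_or_le f2 fr
    have h3 : wt (fun v => Near s⁻¹ v) ≤ wt (fun v => P2 v ∨ Rad a b c v) :=
      wt_mono (f2.union fr) sub2
    linarith
  · have h1 : wt (fun v => P2 v ∨ Near s⁻¹ v) ≤ wt P2 + wt (fun v => Near s⁻¹ v) :=
      wt_or_le f2 fn
    have h3 : wt (Rad a b c) ≤ wt (fun v => P2 v ∨ Near s⁻¹ v) :=
      wt_mono (f2.union fn) sub1
    linarith

end Pool.Agent.Q290.NF
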