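import Pool.Agent.Q290.NF.Kummer
import Pool.Agent.Q290.NF.Thin
import Pool.Agent.Helper259.HtExt

/-!
# Truncated counting functions and discriminants

Let `s` be in the number field `L`, `a = (1 - s) / 2` and `b = (1 + s) / 2`. The field `E` of the
`l`-th roots `x`, `y` of `a` and `b` has discriminant at most
`[E : L] (log |disc L| + ∑ log N(v) + C)`, the sum over the primes at which `1 / s` has the
reduction `0`, `1` or `-1`.
-/

set_option autoImplicit false

namespace Pool.Agent.Q290.NF

open NumberField IsDedekindDomain Height Polynomial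

theorem ht_ext {F K : Type} [Field F] [NumberField F] [Field K] [NumberField K] [Algebra F K]
    (x : F) : logHeight₁ (algebraMap F K x) = Module.finrank F K * logHeight₁ x := by
  have h := Pool.Agent.Helper259.HtExt.logHeight_ext (L := K) ![x, 1]
  have h2 : (fun i => algebraMap F K (![x, 1] i)) = ![algebraMap F K x, 1] := by
    funext i
    fin_cases i <;> simp
  rw [h2] at h
  rw [logHeight₁_eq_logHeight, h, ← logHeight₁_eq_logHeight]

theorem unit_places {L : Type} [Field L] [NumberField L] {l : ℕ} {s : L} (hs : Gen s⁻¹)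
    (v : HeightOneSpectrum (𝓞 L))
    (hv : ¬ (v.valuation L ((2 * l : ℕ) : L) < 1 ∨ Near s⁻¹ v)) :
    v.valuation L (l : L) = 1 ∧ v.valuation L ((1 - s) / 2) = 1 ∧
      v.valuation L ((1 + s) / 2) = 1 := by
  rw [not_or, Near, not_or, not_or] at hv
  obtain ⟨h1, h2, h3, h4⟩ := hv
  rw [not_lt] at h1 h2 h3 h4
  have hn : ∀ n : ℕ, v.valuation L (n : L) ≤ 1 := by
    intro n
    have h : v.valuation L (algebraMap (𝓞 L) L (n : 𝓞 L)) ≤ 1 := v.valuation_le_one (K := L) _
    rwa [map_natCast] at h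
  have e2 : v.valuation L (2 : L) = 1 := by
    have a1 := hn 2
    have a2 := hn l
    push_cast at h1 a1
    rw [map_mul] at h1
    refine le_antisymm a1 (h1.trans ?_)
    exact mul_le_of_le_one_right' a2
  have el : v.valuation L (l : L) = 1 := by
    push_cast at h1
    rw [map_mul, e2, one_mul] at h1
    exact le_antisymm (hn l) h1
  have hs0 : s ≠ 0 := fun h => hs.1 (by rw [h, inv_zero])
  have hs0' : v.valuation L s ≠ 0 := (Valuation.ne_zero_iff _).2 hs0
  have hs1 : v.valuation L s ≤ 1 := by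
    rw [map_inv₀] at h2
    exact (one_le_inv₀ (zero_lt_iff.2 hs0')).1 h2
  -- `1 - s = s (s⁻¹ - 1)`
  have key : ∀ c : L, v.valuation L c = 1 → 1 ≤ v.valuation L (s⁻¹ + c) →
      v.valuation L (1 + c * s) = 1 := by
    intro c hc h
    refine le_antisymm ?_ ?_
    · refine Valuation.map_add_le _ (by rw [map_one]) ?_
      rw [map_mul, hc, one_mul]
      exact hs1
    · rcases hs1.lt_or_eq with h5 | h5
      · refine le_of_eq (Eq.symm ?_)
        rw [Valuation.map_add_eq_of_lt_left]
        · exact map_one _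
        · rw [map_mul, hc, one_mul, map_one]
          exact h5
      · have e : 1 + c * s = s * (s⁻¹ + c) := by
          rw [mul_add, mul_inv_cancel₀ hs0, mul_comm]
        rw [e, map_mul, h5, one_mul]
        exact h
  have k1 := key (-1) (by rw [Valuation.map_neg, map_one]) (by rw [← sub_eq_add_neg]; exact h3)
  have k2 := key 1 (map_one _) h4
  rw [neg_one_mul, ← sub_eq_add_neg] at k1
  rw [one_mul] at k2
  refine ⟨el, ?_, ?_⟩
  · rw [map_div₀, k1, e2, div_one]
  · rw [map_div₀, k2, e2, div_one]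

theorem up_key (L : Type) [Field L] [NumberField L] {l : ℕ} (hl : l ≠ 0) {s : L}
    (hs : Gen s⁻¹) :
    ∃ (E : Type) (_ : Field E) (_ : NumberField E) (_ : Algebra L E) (x y : E),
      x ^ l = algebraMap L E ((1 - s) / 2) ∧ y ^ l = algebraMap L E ((1 + s) / 2) ∧
      Module.finrank L E ≤ l * l ∧
      Real.log |(discr E : ℝ)| ≤ Module.finrank L E * (Real.log |(discr L : ℝ)| +
        wt (fun v => Near s⁻¹ v) + Module.finrank ℚ L *
          (Real.log ((2 * l : ℕ) : ℝ) + Real.log ((l * l).factorial : ℝ))) := by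
  obtain ⟨E, i1, i2, i3, x, y, hx, hy, hd, h⟩ := exists_field L hl ((1 - s) / 2) ((1 + s) / 2)
  refine ⟨E, i1, i2, i3, x, y, hx, hy, hd, ?_⟩
  have h2l : 2 * l ≠ 0 := by omega
  have fin1 : {v : HeightOneSpectrum (𝓞 L) | v.valuation L ((2 * l : ℕ) : L) < 1}.Finite :=
    fin_zero (Nat.cast_ne_zero.2 h2l)
  have fin2 : {v : HeightOneSpectrum (𝓞 L) | Near s⁻¹ v}.Finite := fin_near hs
  have h1 := h (fun v => v.valuation L ((2 * l : ℕ) : L) < 1 ∨ Near s⁻¹ v) (fin1.union fin2)
    (fun v hv => unit_places hs v hv)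
  refine h1.trans (mul_le_mul_of_nonneg_left ?_ (Nat.cast_nonneg _))
  have h3 := (wt_or_le fin1 fin2).trans (add_le_add (wt_nat (K := L) h2l) le_rfl)
  have h4 : Real.log ((Module.finrank L E).factorial : ℝ) ≤ Real.log ((l * l).factorial : ℝ) := by
    refine Real.log_le_log (by exact_mod_cast Nat.factorial_pos _) ?_
    exact_mod_cast Nat.factorial_le hd
  have h5 : (Module.finrank ℚ L : ℝ) * Real.log ((Module.finrank L E).factorial : ℝ) ≤
      Module.finrank ℚ L * Real.log ((l * l).factorial : ℝ) :=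
    mul_le_mul_of_nonneg_left h4 (Nat.cast_nonneg _)
  rw [mul_add]
  linarith


theorem height_two' (L : Type) [Field L] [NumberField L] :
    logHeight₁ (2 : L) ≤ Module.finrank ℚ L * Real.log 2 := by
  have h := height_nat (K := L) (n := 2) (by norm_num)
  push_cast at h
  exact h

/-- `h(s) ≤ h((1 - s) / 2) + 2 log 2` -/
theorem height_half {L : Type} [Field L] [NumberField L] (s : L) :
    logHeight₁ s ≤ logHeight₁ ((1 - s) / 2) + 2 * (Module.finrank ℚ L * Real.log 2) := by
  have e : s = 1 - 2 * ((1 - s) / 2) := by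
    field_simp
    ring
  have h1 := logHeight₁_sub_le (1 : L) (2 * ((1 - s) / 2))
  rw [← e, logHeight₁_one, NumberField.totalWeight_eq_finrank] at h1
  have h2 := logHeight₁_mul_le (2 : L) ((1 - s) / 2)
  have h3 := height_two' L
  linarith

/-- `h((1 - s) / 2) ≤ h(s) + 2 log 2` -/
theorem height_half' {L : Type} [Field L] [NumberField L] (s : L) :
    logHeight₁ ((1 - s) / 2) ≤ logHeight₁ s + 2 * (Module.finrank ℚ L * Real.log 2) := by
  have h1 := logHeight₁_sub_le (1 : L) s
  rw [logHeight₁_one, NumberField.totalWeight_eq_finrank] at h1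
  have h2 := logHeight₁_mul_le (1 - s) (2 : L)⁻¹
  rw [logHeight₁_inv] at h2
  have h3 := height_two' L
  rw [div_eq_mul_inv]
  linarith

/-- **Going up.** -/
theorem up (L : Type) [Field L] [NumberField L] {l : ℕ} (hl : l ≠ 0) {s : L}
    (hs : Gen s⁻¹) :
    ∃ (E : Type) (_ : Field E) (_ : NumberField E) (_ : Algebra L E) (x y : E),
      x ^ l + y ^ l = 1 ∧ y ^ l - x ^ l = algebraMap L E s ∧
      Module.finrank ℚ E ≤ Module.finrank ℚ L * (l * l) ∧
      logHeight₁ s⁻¹ / Module.finrank ℚ L ≤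
        l * (logHeight₁ x / Module.finrank ℚ E) + 2 * Real.log 2 ∧
      Real.log |(discr E : ℝ)| / Module.finrank ℚ E ≤ (wt (fun v => Near s⁻¹ v) /
        Module.finrank ℚ L + Real.log |(discr L : ℝ)| / Module.finrank ℚ L) +
          (Real.log ((2 * l : ℕ) : ℝ) + Real.log ((l * l).factorial : ℝ)) := by
  obtain ⟨E, i1, i2, i3, x, y, hx, hy, hd, h⟩ := up_key L hl hs
  have ht : (Module.finrank ℚ L : ℝ) * Module.finrank L E = Module.finrank ℚ E := by
    exact_mod_cast Module.finrank_mul_finrank ℚ L E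
  obtain ⟨d, hdd⟩ : ∃ d : ℝ, d = (Module.finrank ℚ L : ℝ) := ⟨_, rfl⟩
  obtain ⟨e, he⟩ : ∃ e : ℝ, e = (Module.finrank L E : ℝ) := ⟨_, rfl⟩
  have hd0 : 0 < d := by rw [hdd]; exact_mod_cast Module.finrank_pos
  have he0 : 0 < e := by rw [he]; exact_mod_cast Module.finrank_pos
  refine ⟨E, i1, i2, i3, x, y, ?_, ?_, ?_, ?_, ?_⟩
  · rw [hx, hy, ← map_add]
    have : (1 - s) / 2 + (1 + s) / 2 = 1 := by ring
    rw [this, map_one]
  · rw [hx, hy, ← map_sub]
    congr 1
    ring
  · rw [← Module.finrank_mul_finrank ℚ L E]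
    exact Nat.mul_le_mul_left _ hd
  · have h1 : (l : ℝ) * logHeight₁ x = Module.finrank L E * logHeight₁ ((1 - s) / 2) := by
      rw [← logHeight₁_pow, hx, ht_ext]
    have h2 := height_half s
    rw [logHeight₁_inv, ← ht, ← hdd, ← he]
    rw [← hdd] at h2
    rw [← he] at h1
    have e1 : (l : ℝ) * (logHeight₁ x / (d * e)) = logHeight₁ ((1 - s) / 2) / d := by
      rw [mul_div_assoc', h1]
      field_simp
    rw [e1, div_add' _ _ _ hd0.ne']
    exact div_le_div_of_nonneg_right (by linarith) hd0.le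
  · rw [← ht, ← hdd, ← he]
    rw [← hdd, ← he] at h
    rw [div_le_iff₀ (mul_pos hd0 he0)]
    refine h.trans (le_of_eq ?_)
    field_simp
    ring

/-- **Going down.** -/
theorem down_fermat {M : Type} [Field M] [NumberField M] {l : ℕ} (hl : l ≠ 0) {x y : M}
    (hx : x ≠ 0) (hy : y ≠ 0) (h : x ^ l + y ^ l = 1) (hs : y ^ l - x ^ l ≠ 0) :
    Gen (y ^ l - x ^ l)⁻¹ ∧
    wt (fun v => Near (y ^ l - x ^ l)⁻¹ v) ≤
      3 * logHeight₁ x + 2 * (Module.finrank ℚ M * Real.log 2) ∧
    l * logHeight₁ x ≤ logHeight₁ (y ^ l - x ^ l)⁻¹ + 2 * (Module.finrank ℚ M * Real.log 2) := by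
  obtain ⟨s, hs'⟩ : ∃ s : M, s = y ^ l - x ^ l := ⟨_, rfl⟩
  rw [← hs'] at hs ⊢
  have ex : 1 - s = 2 * x ^ l := by
    rw [hs']
    linear_combination -h
  have ey : 1 + s = 2 * y ^ l := by
    rw [hs']
    linear_combination -h
  have hxl : x ^ l ≠ 0 := pow_ne_zero _ hx
  have hyl : y ^ l ≠ 0 := pow_ne_zero _ hy
  have h2 : (2 : M) ≠ 0 := two_ne_zero
  have hgen : Gen s⁻¹ := by
    refine ⟨inv_ne_zero hs, ?_, ?_⟩
    · intro h1
      rw [inv_eq_one] at h1
      rw [h1, sub_self] at ex
      exact mul_ne_zero h2 hxl ex.symm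
    · intro h1
      rw [inv_eq_iff_eq_inv, inv_neg, inv_one] at h1
      rw [h1] at ey
      exact mul_ne_zero h2 hyl (by rw [← ey]; ring)
  have hpl : ∀ (v : HeightOneSpectrum (𝓞 M)) (z : M), v.valuation M z ^ l < 1 →
      v.valuation M z < 1 := by
    intro v z hz
    by_contra hcon
    exact absurd hz (not_lt.2 (one_le_pow₀ (not_lt.1 hcon)))
  have hv2 : ∀ v : HeightOneSpectrum (𝓞 M), v.valuation M (2 : M) ≤ 1 := by
    intro v
    have h : v.valuation M (algebraMap (𝓞 M) M ((2 : ℕ) : 𝓞 M)) ≤ 1 :=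
      v.valuation_le_one (K := M) _
    rwa [map_natCast] at h
  have hor : ∀ (v : HeightOneSpectrum (𝓞 M)) (z : M), v.valuation M (2 * z ^ l) < 1 →
      v.valuation M (2 : M) < 1 ∨ v.valuation M z < 1 := by
    intro v z hz
    by_cases h3 : v.valuation M (2 : M) < 1
    · exact Or.inl h3
    · right
      have h4 : v.valuation M (2 : M) = 1 := le_antisymm (hv2 v) (not_lt.1 h3)
      rw [map_mul, h4, one_mul, map_pow] at hz
      exact hpl v z hz
  refine ⟨hgen, ?_, ?_⟩
  · have hsub : ∀ v : HeightOneSpectrum (𝓞 M), Near s⁻¹ v →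
        (v.valuation M ((2 : ℕ) : M) < 1 ∨ v.valuation M x < 1) ∨
          (v.valuation M y < 1 ∨ 1 < v.valuation M x) := by
      intro v hv
      rcases hv with hv | hv | hv
      · right; right
        by_contra hcon
        rw [not_lt] at hcon
        rw [map_inv₀] at hv
        have h5 : v.valuation M s ≤ 1 := by
          have e : s = 1 - 2 * x ^ l := by rw [← ex]; ring
          rw [e]
          refine Valuation.map_sub_le _ (by rw [map_one]) ?_
          rw [map_mul, map_pow]
          exact mul_le_one' (hv2 v) (pow_le_one' hcon l)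
        exact absurd hv (not_lt.2 ((one_le_inv₀ (zero_lt_iff.2
          ((Valuation.ne_zero_iff _).2 hs))).2 h5))
      · left
        have h6 : v.valuation M s⁻¹ = 1 := by
          have e : s⁻¹ = (s⁻¹ - 1) + 1 := by ring
          rw [e, Valuation.map_add_eq_of_lt_right, map_one]
          rw [map_one]
          exact hv
        have h7 : v.valuation M s = 1 := by
          rwa [map_inv₀, inv_eq_one] at h6
        have e : 2 * x ^ l = s * (s⁻¹ - 1) := by
          rw [← ex, mul_sub, mul_inv_cancel₀ hs, mul_one]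
        have h8 := hor v x (by rw [e, map_mul, h7, one_mul]; exact hv)
        push_cast
        exact h8
      · have h6 : v.valuation M s⁻¹ = 1 := by
          have e : s⁻¹ = (s⁻¹ + 1) + -1 := by ring
          rw [e, Valuation.map_add_eq_of_lt_right, Valuation.map_neg, map_one]
          rw [Valuation.map_neg, map_one]
          exact hv
        have h7 : v.valuation M s = 1 := by
          rwa [map_inv₀, inv_eq_one] at h6
        have e : 2 * y ^ l = s * (s⁻¹ + 1) := by
          rw [← ey, mul_add, mul_inv_cancel₀ hs, mul_one]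
        have h8 := hor v y (by rw [e, map_mul, h7, one_mul]; exact hv)
        push_cast
        rcases h8 with h8 | h8
        · exact Or.inl (Or.inl h8)
        · exact Or.inr (Or.inl h8)
    obtain ⟨P2, hP2⟩ : ∃ P : HeightOneSpectrum (𝓞 M) → Prop, P = fun v =>
      v.valuation M ((2 : ℕ) : M) < 1 := ⟨_, rfl⟩
    obtain ⟨Px, hPx⟩ : ∃ P : HeightOneSpectrum (𝓞 M) → Prop, P = fun v =>
      v.valuation M x < 1 := ⟨_, rfl⟩
    obtain ⟨Py, hPy⟩ : ∃ P : HeightOneSpectrum (𝓞 M) → Prop, P = fun v =>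
      v.valuation M y < 1 := ⟨_, rfl⟩
    obtain ⟨Pp, hPp⟩ : ∃ P : HeightOneSpectrum (𝓞 M) → Prop, P = fun v =>
      1 < v.valuation M x := ⟨_, rfl⟩
    have f2 : {v | P2 v}.Finite := by
      rw [hP2]
      exact fin_zero (by exact_mod_cast h2)
    have fx : {v | Px v}.Finite := by
      rw [hPx]
      exact fin_zero hx
    have fy : {v | Py v}.Finite := by
      rw [hPy]
      exact fin_zero hy
    have fp : {v | Pp v}.Finite := by
      rw [hPp]
      exact fin_pole x
    have f2x : {v | P2 v ∨ Px v}.Finite := f2.union fx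
    have fyp : {v | Py v ∨ Pp v}.Finite := fy.union fp
    have f4 : {v | (P2 v ∨ Px v) ∨ (Py v ∨ Pp v)}.Finite := f2x.union fyp
    have hsub' : ∀ v : HeightOneSpectrum (𝓞 M), Near s⁻¹ v →
        (P2 v ∨ Px v) ∨ (Py v ∨ Pp v) := by
      rw [hP2, hPx, hPy, hPp]
      exact hsub
    have k1 : wt (fun v => P2 v ∨ Px v) ≤ wt P2 + wt Px := wt_or_le f2 fx
    have k2 : wt (fun v => Py v ∨ Pp v) ≤ wt Py + wt Pp := wt_or_le fy fp
    have k3 : wt (fun v => (P2 v ∨ Px v) ∨ (Py v ∨ Pp v)) ≤
      wt (fun v => P2 v ∨ Px v) + wt (fun v => Py v ∨ Pp v) := wt_or_le f2x fyp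
    have k4 : wt (fun v => Near s⁻¹ v) ≤ wt (fun v => (P2 v ∨ Px v) ∨ (Py v ∨ Pp v)) :=
      wt_mono f4 hsub'
    have k5 : wt P2 ≤ Module.finrank ℚ M * Real.log 2 := by
      have := wt_nat (K := M) (n := 2) (by norm_num)
      rw [hP2]
      exact_mod_cast this
    have k6 : ∀ z : M, z ≠ 0 → wt (fun v : HeightOneSpectrum (𝓞 M) => v.valuation M z < 1) ≤
        logHeight₁ z := by
      intro z hz
      have h1 := pole_le (K := M) z⁻¹
      rw [logHeight₁_inv] at h1
      refine le_trans ?_ h1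
      refine wt_mono (fin_pole _) fun v hv => ?_
      rw [map_inv₀]
      exact (one_lt_inv₀ (zero_lt_iff.2 ((Valuation.ne_zero_iff _).2 hz))).2 hv
    have k7 : wt Pp ≤ logHeight₁ x := by
      rw [hPp]
      exact pole_le (K := M) x
    have k8 : (l : ℝ) * logHeight₁ y ≤ l * logHeight₁ x + Module.finrank ℚ M * Real.log 2 := by
      rw [← logHeight₁_pow, ← logHeight₁_pow]
      have e : y ^ l = 1 - x ^ l := by linear_combination h
      rw [e]
      have := logHeight₁_sub_le (1 : M) (x ^ l)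
      rw [logHeight₁_one, NumberField.totalWeight_eq_finrank] at this
      linarith
    have hd : 0 ≤ (Module.finrank ℚ M : ℝ) * Real.log 2 :=
      mul_nonneg (Nat.cast_nonneg _) (Real.log_nonneg (by norm_num))
    have hl1 : (1 : ℝ) ≤ l := by exact_mod_cast Nat.one_le_iff_ne_zero.2 hl
    have k9 : logHeight₁ y ≤ logHeight₁ x + Module.finrank ℚ M * Real.log 2 := by
      by_contra hcon
      rw [not_le] at hcon
      have := mul_lt_mul_of_pos_left hcon (by linarith : (0 : ℝ) < l)
      nlinarith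
    have k10 : wt Px ≤ logHeight₁ x := by
      rw [hPx]
      exact k6 x hx
    have k11 : wt Py ≤ logHeight₁ y := by
      rw [hPy]
      exact k6 y hy
    linarith
  · rw [← logHeight₁_pow, logHeight₁_inv]
    have e : x ^ l = (1 - s) / 2 := by rw [ex]; field_simp
    rw [e]
    exact height_half' s

end Pool.Agent.Q290.NF
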